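import Mathlib

set_option autoImplicit false

/-!
# Essential girth of nearly Ramanujan graphs: definitions

`G` is a finite connected `(q + 1)`-regular graph, `v` a vertex (the root of a breadth first tree),
`G.dist v x` the level of `x`.
-/

namespace Pool.Agent.helper5.RG

open Finset

variable {V : Type*} [Fintype V] [DecidableEq V] (G : SimpleGraph V) [DecidableRel G.Adj]

/-- every eigenvalue of modulus other than `d` has modulus at most `L` -/
def Spec (d : ℕ) (L : ℝ) : Prop :=
  ∀ μ : ℝ, (∃ x : V → ℝ, x ≠ 0 ∧ Matrix.mulVec (G.adjMatrix ℝ) x = μ • x) →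
    |μ| = (d : ℝ) ∨ |μ| ≤ L

/-- the sphere of radius `j` around `v` -/
noncomputable def sph (v : V) (j : ℕ) : Finset V := univ.filter fun x => G.dist v x = j

/-- the ball of radius `j` around `v` -/
noncomputable def bal (v : V) (j : ℕ) : Finset V := univ.filter fun x => G.dist v x ≤ j

open Classical in
/-- the parent of `x` in a breadth first tree with root `v` (and `par v v = v`) -/
noncomputable def par (v x : V) : V :=
  if h : ∃ y, G.Adj x y ∧ G.dist v y + 1 = G.dist v x then h.choose else x

/-- the number of neighbours of `x` which are not farther from `v` than `x`, other than the parent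
of `x` -/
noncomputable def W (v x : V) : ℕ :=
  (univ.filter fun z => G.Adj x z ∧ G.dist v z ≤ G.dist v x ∧ z ≠ par G v x).card

/-- `w` lies on an edge which is not an edge of the tree of `v` -/
def Dfct (v w : V) : Prop := ∃ z, G.Adj w z ∧ par G v w ≠ z ∧ par G v z ≠ w

/-- the ball of radius `r` around `y` does not induce a tree -/
def Bad (r : ℕ) (y : V) : Prop := ¬ (G.induce {u : V | G.dist y u ≤ r}).IsTree

/-- the radial test function with profile `g` -/
noncomputable def tf (q : ℕ) (g : ℕ → ℝ) (v x : V) : ℝ :=
  g (G.dist v x) * (Real.sqrt q)⁻¹ ^ (G.dist v x)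

end Pool.Agent.helper5.RG
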