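import Mathlib
import Pool.Agent.helper5.RG.Defs

set_option autoImplicit false

/-!
# RG-4 (Par): parents and descendants

PROOFS. `par_spec`: a vertex `x ≠ v` of a connected graph has a neighbour `y` with `dist v y + 1 = dist v x` (the
last vertex before `x` on a shortest walk from `v` to `x`). `card_children_le`: the vertices `x ≠ v` with
`par v x = u` are neighbours of `u` other than `par v u` (`par v u` has a smaller level than `u`, `x` a larger one).
`card_desc_le`: induction on `b`; the vertices `y` with `par^[b + 1] y = u`, `dist v y = dist v u + b + 1` are the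
children of the vertices `x` with `par^[b] x = u`, `dist v x = dist v u + b`; these `x` are not `v`.
-/

namespace Pool.Agent.helper5.RG

open Finset

variable {V : Type*} [Fintype V] [DecidableEq V] (G : SimpleGraph V) [DecidableRel G.Adj]

lemma exists_par (hc : G.Connected) {v x : V} (hx : x ≠ v) :
    ∃ y, G.Adj x y ∧ G.dist v y + 1 = G.dist v x := by
  obtain ⟨p, hp⟩ := (hc x v).exists_walk_length_eq_dist
  cases p with
  | nil => exact absurd rfl hx
  | @cons _ y _ h q =>
    refine ⟨y, h, ?_⟩
    have h1 : G.dist y v ≤ q.length := SimpleGraph.dist_le q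
    have h2 : q.length + 1 = G.dist x v := by simpa using hp
    have h3 : G.dist x v ≤ G.dist x y + G.dist y v := hc.dist_triangle
    have h4 : G.dist x y = 1 := SimpleGraph.dist_eq_one_iff_adj.2 h
    rw [SimpleGraph.dist_comm (u := v) (v := y), SimpleGraph.dist_comm (u := v) (v := x)]
    omega

lemma par_spec (hc : G.Connected) {v x : V} (hx : x ≠ v) :
    G.Adj x (par G v x) ∧ G.dist v (par G v x) + 1 = G.dist v x := by
  have h := exists_par G hc hx
  unfold par
  rw [dif_pos h]
  exact h.choose_spec

lemma par_self (v : V) : par G v v = v := by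
  unfold par
  rw [dif_neg]
  rintro ⟨y, -, h⟩
  rw [SimpleGraph.dist_self] at h
  omega

/-- levels of iterated parents (truncated subtraction) -/
lemma dist_par_iter (hc : G.Connected) (v x : V) (b : ℕ) :
    G.dist v ((par G v)^[b] x) = G.dist v x - b := by
  induction b with
  | zero => simp
  | succ b ih =>
    rw [Function.iterate_succ_apply']
    by_cases hz : (par G v)^[b] x = v
    · rw [hz] at ih ⊢
      rw [par_self]
      rw [SimpleGraph.dist_self] at ih ⊢
      omega
    · have h := (par_spec G hc hz).2
      omega

/-- adjacent levels differ by at most one -/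
lemma dist_adj_le (hc : G.Connected) (v : V) {x y : V} (h : G.Adj x y) :
    G.dist v y ≤ G.dist v x + 1 := by
  have h3 : G.dist v y ≤ G.dist v x + G.dist x y := hc.dist_triangle
  have h4 : G.dist x y = 1 := SimpleGraph.dist_eq_one_iff_adj.2 h
  omega

lemma card_children_le {q : ℕ} (hc : G.Connected) (hr : G.IsRegularOfDegree (q + 1)) (v u : V)
    (hu : u ≠ v) : (univ.filter fun x => par G v x = u ∧ x ≠ v).card ≤ q := by
  have hsub : (univ.filter fun x => par G v x = u ∧ x ≠ v) ⊆
      (G.neighborFinset u).erase (par G v u) := by
    intro x hx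
    rw [mem_filter] at hx
    obtain ⟨-, h1, h2⟩ := hx
    have h3 := par_spec G hc h2
    have h4 := par_spec G hc hu
    rw [h1] at h3
    rw [mem_erase, SimpleGraph.mem_neighborFinset]
    refine ⟨?_, h3.1.symm⟩
    intro h5
    rw [← h5] at h4
    omega
  refine (card_le_card hsub).trans ?_
  rw [card_erase_of_mem (by
    rw [SimpleGraph.mem_neighborFinset]
    exact (par_spec G hc hu).1), SimpleGraph.card_neighborFinset_eq_degree, hr u]
  omega

/-- the number of descendants `b` levels below `u ≠ v` -/
theorem card_desc_le {q : ℕ} (hc : G.Connected) (hr : G.IsRegularOfDegree (q + 1)) (v u : V)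
    (hu : u ≠ v) (b : ℕ) :
    (univ.filter fun y => (par G v)^[b] y = u ∧ G.dist v y = G.dist v u + b).card ≤ q ^ b := by
  have hpos : 0 < G.dist v u := hc.pos_dist_of_ne (Ne.symm hu)
  induction b with
  | zero =>
    have hsub : (univ.filter fun y => (par G v)^[0] y = u ∧ G.dist v y = G.dist v u + 0) ⊆
        {u} := by
      intro y hy
      rw [mem_filter] at hy
      rw [mem_singleton]
      exact hy.2.1
    refine (card_le_card hsub).trans ?_
    simp
  | succ b ih =>
    have hsub : (univ.filter fun y => (par G v)^[b + 1] y = u ∧
          G.dist v y = G.dist v u + (b + 1)) ⊆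
        (univ.filter fun y => (par G v)^[b] y = u ∧ G.dist v y = G.dist v u + b).biUnion
          (fun x => univ.filter fun y => par G v y = x ∧ y ≠ v) := by
      intro y hy
      rw [mem_filter] at hy
      obtain ⟨-, h1, h2⟩ := hy
      have hyv : y ≠ v := by
        intro h
        rw [h, SimpleGraph.dist_self] at h2
        omega
      have h3 := (par_spec G hc hyv).2
      rw [mem_biUnion]
      refine ⟨par G v y, ?_, ?_⟩
      · rw [mem_filter]
        refine ⟨mem_univ _, ?_, by omega⟩
        rw [Function.iterate_succ_apply] at h1
        exact h1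
      · rw [mem_filter]
        exact ⟨mem_univ _, rfl, hyv⟩
    refine (card_le_card hsub).trans (card_biUnion_le.trans ?_)
    calc ∑ x ∈ univ.filter (fun y => (par G v)^[b] y = u ∧ G.dist v y = G.dist v u + b),
          (univ.filter fun y => par G v y = x ∧ y ≠ v).card
        ≤ ∑ x ∈ univ.filter (fun y => (par G v)^[b] y = u ∧ G.dist v y = G.dist v u + b), q := by
          refine sum_le_sum fun x hx => ?_
          rw [mem_filter] at hx
          refine card_children_le G hc hr v x ?_
          intro h
          rw [h, SimpleGraph.dist_self] at hx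
          omega
      _ = (univ.filter fun y => (par G v)^[b] y = u ∧ G.dist v y = G.dist v u + b).card * q := by
          rw [sum_const, smul_eq_mul]
      _ ≤ q ^ b * q := Nat.mul_le_mul_right _ ih
      _ = q ^ (b + 1) := (pow_succ _ _).symm

end Pool.Agent.helper5.RG
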