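import Mathlib
import Pool.Agent.helper5.RG.Par

set_option autoImplicit false

/-!
# RG-7 (Tre): a ball without defect vertices is a tree

PROOF. Say that `w` is at tree distance at most `k` from `y` if `par^[b] y = par^[i] w` for some `i + b ≤ k`. (1) If
`w` is at tree distance at most `k ≤ r` and `w'` is adjacent to `w`, then (no defect at `w`) `par w = w'` or
`par w' = w`, and `w'` is at tree distance at most `k + 1` (cases `i = 0`, `i ≥ 1`). (2) Hence every `w` with
`dist y w ≤ r` is at tree distance at most `dist y w ≤ r` from `y` (induction on the distance) and is not a defect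
vertex, so every edge inside the ball is of the form `{x, par x}`. (3) A graph all of whose edges are of the form
`{x, par x}` is acyclic: a vertex of maximal level on a cycle has two different neighbours on it
(`SimpleGraph.Walk.IsCycle`, rotate the cycle), both of them would be its parent. (4) The ball is connected: every
vertex `w` of it is joined to `y` by a shortest walk of `G`, whose vertices are in the ball.
-/

namespace Pool.Agent.helper5.RG

open Finset

variable {V : Type*} [Fintype V] [DecidableEq V] (G : SimpleGraph V) [DecidableRel G.Adj]

/-- the ball is connected -/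
theorem preconnected_ball (hc : G.Connected) (y : V) (r : ℕ) :
    (G.induce {u : V | G.dist y u ≤ r}).Connected := by
  refine SimpleGraph.induce_connected_of_patches y (by simp) ?_
  intro w hw
  obtain ⟨p, hp⟩ := hc.exists_walk_length_eq_dist y w
  refine ⟨{u | u ∈ p.support}, ?_, p.start_mem_support, p.end_mem_support, ?_⟩
  · intro u hu
    have h1 : (p.takeUntil u hu).length ≤ p.length := p.length_takeUntil_le_length hu
    have h2 : G.dist y u ≤ (p.takeUntil u hu).length := SimpleGraph.dist_le _
    have h3 : G.dist y w ≤ r := hw
    show G.dist y u ≤ r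
    omega
  · exact (p.connected_induce_support).preconnected _ _

theorem acyclic_of_par (hc : G.Connected) (v : V) (s : Set V)
    (h : ∀ x ∈ s, ∀ z ∈ s, G.Adj x z → par G v x = z ∨ par G v z = x) :
    (G.induce s).IsAcyclic := by
  classical
  intro u c hcyc
  -- a vertex of maximal level on the cycle
  obtain ⟨x, hx, hmax⟩ := c.support.toFinset.exists_max_image (fun t => G.dist v t.1)
    ⟨u, by simp⟩
  rw [List.mem_toFinset] at hx
  have hcyc' := hcyc.rotate hx
  have hne := hcyc'.snd_ne_penultimate
  have key : ∀ a : s, a ∈ (c.rotate x hx).support → (G.induce s).Adj x a → par G v x.1 = a.1 := by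
    intro a ha hadj
    have ha' : a ∈ c.support := by
      rw [SimpleGraph.Walk.mem_support_rotate_iff] at ha
      exact ha
    have hle := hmax a (List.mem_toFinset.2 ha')
    have hadj' : G.Adj x.1 a.1 := hadj
    rcases h x.1 x.2 a.1 a.2 hadj' with h1 | h1
    · exact h1
    · exfalso
      by_cases hav : a.1 = v
      · rw [hav, par_self] at h1
        exact hadj'.ne (h1.symm.trans hav.symm)
      · have h2 := (par_spec G hc hav).2
        rw [h1] at h2
        have hle' : G.dist v a.1 ≤ G.dist v x.1 := hle
        omega
  have hnil : ¬ (c.rotate x hx).Nil := hcyc'.not_nil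
  have a1 := key (c.rotate x hx).snd (SimpleGraph.Walk.getVert_mem_support _ _)
    (SimpleGraph.Walk.adj_snd hnil)
  have a2 := key (c.rotate x hx).penultimate (SimpleGraph.Walk.getVert_mem_support _ _)
    (SimpleGraph.Walk.adj_penultimate hnil).symm
  exact hne (Subtype.ext (a1.symm.trans a2))

theorem isTree_of_no_defect (hc : G.Connected) (v y : V) (r : ℕ)
    (h : ∀ w : V, ∀ i b : ℕ, i + b ≤ r → (par G v)^[b] y = (par G v)^[i] w → ¬ Dfct G v w) :
    (G.induce {u : V | G.dist y u ≤ r}).IsTree := by
  have hstep : ∀ w z : V, ¬ Dfct G v w → G.Adj w z → par G v w = z ∨ par G v z = w := by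
    intro w z hw hz
    by_contra hcon
    rw [not_or] at hcon
    exact hw ⟨z, hz, hcon.1, hcon.2⟩
  have claim : ∀ k : ℕ, k ≤ r → ∀ w : V, G.dist y w ≤ k →
      ∃ i b : ℕ, i + b ≤ k ∧ (par G v)^[b] y = (par G v)^[i] w := by
    intro k
    induction k with
    | zero =>
      intro _ w hw
      have : y = w := (hc.dist_eq_zero_iff).1 (Nat.le_zero.1 hw)
      exact ⟨0, 0, le_rfl, by simpa using this⟩
    | succ k ih =>
      intro hk w hw
      rcases Nat.lt_or_ge (G.dist y w) (k + 1) with hlt | hge
      · obtain ⟨i, b, hib, he⟩ := ih (by omega) w (by omega)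
        exact ⟨i, b, by omega, he⟩
      · -- a neighbour of w closer to y
        have hwy : w ≠ y := by
          rintro rfl
          simp at hge
        obtain ⟨ha, hd⟩ := par_spec G hc (v := y) hwy
        set w' := par G y w with hw'
        obtain ⟨i, b, hib, he⟩ := ih (by omega) w' (by omega)
        have hnd := h w' i b (by omega) he
        rcases hstep w' w hnd ha.symm with h1 | h1
        · cases i with
          | zero =>
            refine ⟨0, b + 1, by omega, ?_⟩
            rw [Function.iterate_succ_apply', he]
            simpa using h1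
          | succ j =>
            refine ⟨j, b, by omega, ?_⟩
            rw [he, Function.iterate_succ_apply, h1]
        · refine ⟨i + 1, b, by omega, ?_⟩
          rw [he, Function.iterate_succ_apply, h1]
  refine ⟨preconnected_ball G hc y r, acyclic_of_par G hc v _ ?_⟩
  intro x hx z _ hxz
  obtain ⟨i, b, hib, he⟩ := claim r le_rfl x hx
  exact hstep x z (h x i b hib he) hxz

end Pool.Agent.helper5.RG
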