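import Mathlib
import Pool.Agent.helper5.RG.Tre

set_option autoImplicit false

/-!
# RG-8 (Cha): bad vertices are charged to defect vertices

PROOF of `card_bad_le`. By `isTree_of_no_defect` every bad `y` in `sph v t` has a defect vertex `w` and `i + b ≤ r`
with `par^[b] y = par^[i] w =: u`. Levels (`dist_par_iter`): `dist v u = t - b > 0` (as `b ≤ r < t`), so `u ≠ v`,
`dist v w - i = t - b` and `i < dist v w`, i.e. `dist v w = t - b + i`; so `|dist v w - t| ≤ r`. For given `w` and `i`
the number `b = t + i - dist v w` is determined and there are at most `q ^ b` such `y` (`card_desc_le`), and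
`b = t + i - dist v w ≤ t + r - dist v w`. There are `r + 1` values of `i`. (Use `Finset.card_biUnion_le` over
`w` and `i ∈ range (r + 1)`.)
-/

namespace Pool.Agent.helper5.RG

open Finset

variable {V : Type*} [Fintype V] [DecidableEq V] (G : SimpleGraph V) [DecidableRel G.Adj]

open Classical in
/-- the fibre of the charging map -/
private noncomputable def fib (v : V) (t : ℕ) (w : V) (i : ℕ) : Finset V :=
  if (par G v)^[i] w ≠ v then
    univ.filter fun y => (par G v)^[t + i - G.dist v w] y = (par G v)^[i] w ∧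
      G.dist v y = G.dist v ((par G v)^[i] w) + (t + i - G.dist v w)
  else ∅

private lemma card_fib_le {q : ℕ} (hc : G.Connected) (hr : G.IsRegularOfDegree (q + 1))
    (v : V) (t : ℕ) (w : V) (i : ℕ) : (fib G v t w i).card ≤ q ^ (t + i - G.dist v w) := by
  unfold fib
  split_ifs with h
  · exact card_desc_le G hc hr v _ h _
  · simp

open Classical in
theorem card_bad_le {q : ℕ} (hq : 1 ≤ q) (hc : G.Connected) (hr : G.IsRegularOfDegree (q + 1))
    (v : V) {r t : ℕ} (ht : r < t) :
    (((sph G v t).filter (Bad G r)).card : ℝ) ≤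
      ∑ w ∈ univ.filter (fun w => Dfct G v w ∧ t ≤ G.dist v w + r ∧ G.dist v w ≤ t + r),
        ((r : ℝ) + 1) * (q : ℝ) ^ (t + r) * ((q : ℝ)⁻¹) ^ (G.dist v w) := by
  set D := univ.filter (fun w => Dfct G v w ∧ t ≤ G.dist v w + r ∧ G.dist v w ≤ t + r) with hD
  have hsub : (sph G v t).filter (Bad G r) ⊆
      D.biUnion fun w => (range (r + 1)).biUnion fun i => fib G v t w i := by
    intro y hy
    rw [mem_filter] at hy
    obtain ⟨hy1, hy2⟩ := hy
    have hyt : G.dist v y = t := by
      simpa [sph] using hy1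
    have hex : ∃ w : V, ∃ i b : ℕ, i + b ≤ r ∧ (par G v)^[b] y = (par G v)^[i] w ∧
        Dfct G v w := by
      by_contra hcon
      apply hy2
      apply isTree_of_no_defect G hc v y r
      intro w i b hib he hd
      exact hcon ⟨w, i, b, hib, he, hd⟩
    obtain ⟨w, i, b, hib, he, hd⟩ := hex
    have h1 := dist_par_iter G hc v y b
    have h2 := dist_par_iter G hc v w i
    rw [he, h2, hyt] at h1
    have hb : t + i - G.dist v w = b := by omega
    have hu : (par G v)^[i] w ≠ v := by
      intro hv
      rw [hv, SimpleGraph.dist_self] at h2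
      omega
    rw [mem_biUnion]
    refine ⟨w, ?_, ?_⟩
    · rw [hD, mem_filter]
      refine ⟨mem_univ _, hd, by omega, by omega⟩
    · rw [mem_biUnion]
      refine ⟨i, mem_range.2 (by omega), ?_⟩
      unfold fib
      rw [if_pos hu, mem_filter, hb]
      refine ⟨mem_univ _, he, ?_⟩
      rw [h2, hyt]
      omega
  have hq0 : (0 : ℝ) < (q : ℝ) := by exact_mod_cast hq
  have hcard : (((sph G v t).filter (Bad G r)).card : ℝ) ≤
      ∑ w ∈ D, ((∑ i ∈ range (r + 1), (fib G v t w i).card : ℕ) : ℝ) := by
    have h1 := card_le_card hsub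
    have h2 : (D.biUnion fun w => (range (r + 1)).biUnion fun i => fib G v t w i).card ≤
        ∑ w ∈ D, ∑ i ∈ range (r + 1), (fib G v t w i).card :=
      card_biUnion_le.trans (sum_le_sum fun w _ => card_biUnion_le)
    have h3 := h1.trans h2
    calc (((sph G v t).filter (Bad G r)).card : ℝ)
        ≤ ((∑ w ∈ D, ∑ i ∈ range (r + 1), (fib G v t w i).card : ℕ) : ℝ) := by
          exact_mod_cast h3
      _ = _ := by push_cast; rfl
  refine hcard.trans (sum_le_sum fun w hw => ?_)
  rw [hD, mem_filter] at hw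
  obtain ⟨-, -, hw1, hw2⟩ := hw
  have hfib : ∀ i ∈ range (r + 1), (fib G v t w i).card ≤ q ^ (t + r - G.dist v w) := by
    intro i hi
    rw [mem_range] at hi
    refine (card_fib_le G hc hr v t w i).trans (Nat.pow_le_pow_right hq (by omega))
  have hs : (∑ i ∈ range (r + 1), (fib G v t w i).card) ≤
      (r + 1) * q ^ (t + r - G.dist v w) := by
    refine (sum_le_sum hfib).trans ?_
    simp
  have hpow : (q : ℝ) ^ (t + r - G.dist v w) =
      (q : ℝ) ^ (t + r) * ((q : ℝ)⁻¹) ^ (G.dist v w) := by
    rw [inv_pow, pow_sub₀ _ hq0.ne' hw2]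
  calc ((∑ i ∈ range (r + 1), (fib G v t w i).card : ℕ) : ℝ)
      ≤ (((r + 1) * q ^ (t + r - G.dist v w) : ℕ) : ℝ) := by exact_mod_cast hs
    _ = ((r : ℝ) + 1) * (q : ℝ) ^ (t + r) * ((q : ℝ)⁻¹) ^ (G.dist v w) := by
        push_cast
        rw [hpow]
        ring

end Pool.Agent.helper5.RG
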