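import Mathlib
import Pool.Agent.helper5.RG.Par

set_option autoImplicit false

/-!
# RG-9 (Chb): defect vertices are charged to `W`

PROOF of `dfct_le_W`. If `w` is a defect vertex with partner `z`: if `dist v z ≤ dist v w` then `z` is counted by
`W v w`, so `W v w ≥ 1`; otherwise `dist v z = dist v w + 1` and `w` is counted by `W v z` (`w ≠ par v z`,
`dist v w ≤ dist v z`), and `q⁻¹ ^ (dist v w) = q * q⁻¹ ^ (dist v z)`. So the sum over defect vertices `w` is at most
`∑ x, (W v x) q⁻¹ ^ (dist v x) + ∑ x, (number of w counted by W v x with dist v w + 1 = dist v x) * q * q⁻¹ ^ (dist v x)`.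
-/

namespace Pool.Agent.helper5.RG

open Finset

variable {V : Type*} [Fintype V] [DecidableEq V] (G : SimpleGraph V) [DecidableRel G.Adj]

open Classical in
theorem dfct_le_W {q : ℕ} (hq : 1 ≤ q) (hc : G.Connected) (v : V) (a b : ℕ) :
    ∑ w ∈ univ.filter (fun w => Dfct G v w ∧ a ≤ G.dist v w ∧ G.dist v w ≤ b),
        ((q : ℝ)⁻¹) ^ (G.dist v w) ≤
      (1 + (q : ℝ)) * ∑ x ∈ univ.filter (fun x => a ≤ G.dist v x ∧ G.dist v x ≤ b + 1),
        (W G v x : ℝ) * ((q : ℝ)⁻¹) ^ (G.dist v x) := by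
  set X := univ.filter (fun x => a ≤ G.dist v x ∧ G.dist v x ≤ b + 1) with hX
  set S := univ.filter (fun w => Dfct G v w ∧ a ≤ G.dist v w ∧ G.dist v w ≤ b) with hS
  have hq0 : (0 : ℝ) < q := by exact_mod_cast hq
  have hp : ∀ n : ℕ, (0 : ℝ) < ((q : ℝ)⁻¹) ^ n := fun n => by positivity
  let P : V → V → Prop := fun z w => G.Adj z w ∧ G.dist v w ≤ G.dist v z ∧ w ≠ par G v z
  have hW : ∀ z, (∑ w, if P z w then (q : ℝ) * ((q : ℝ)⁻¹) ^ (G.dist v z) else 0)
      = (q : ℝ) * ((W G v z : ℝ) * ((q : ℝ)⁻¹) ^ (G.dist v z)) := by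
    intro z
    rw [← Finset.sum_filter, Finset.sum_const, nsmul_eq_mul]
    have : (univ.filter fun w => P z w).card = W G v z := by
      unfold W
      congr 1
    rw [this]
    ring
  have key : ∀ w ∈ S, ((q : ℝ)⁻¹) ^ (G.dist v w) ≤
      (if w ∈ X then (W G v w : ℝ) * ((q : ℝ)⁻¹) ^ (G.dist v w) else 0)
      + ∑ z ∈ X, if P z w then (q : ℝ) * ((q : ℝ)⁻¹) ^ (G.dist v z) else 0 := by
    intro w hw
    obtain ⟨⟨z, hz, hz1, hz2⟩, ha, hb⟩ := (Finset.mem_filter.1 hw).2
    have hwX : w ∈ X := by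
      rw [hX, Finset.mem_filter]
      exact ⟨Finset.mem_univ _, ha, by omega⟩
    rw [if_pos hwX]
    have hnn : (0 : ℝ) ≤ ∑ z ∈ X, if P z w then (q : ℝ) * ((q : ℝ)⁻¹) ^ (G.dist v z) else 0 := by
      apply Finset.sum_nonneg
      intro z _
      split_ifs
      · exact mul_nonneg hq0.le (hp _).le
      · exact le_refl _
    rcases le_or_gt (G.dist v z) (G.dist v w) with h | h
    · have h1 : 1 ≤ W G v w := by
        unfold W
        rw [Nat.one_le_iff_ne_zero, ← Nat.pos_iff_ne_zero, Finset.card_pos]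
        exact ⟨z, Finset.mem_filter.2 ⟨Finset.mem_univ _, hz, h, fun h' => hz1 h'.symm⟩⟩
      have h2 : (1 : ℝ) ≤ (W G v w : ℝ) := by exact_mod_cast h1
      have h3 := hp (G.dist v w)
      nlinarith [mul_le_mul_of_nonneg_right h2 h3.le]
    · have h0 := dist_adj_le G hc v hz
      have hzw : G.dist v z = G.dist v w + 1 := by omega
      have hzX : z ∈ X := by
        rw [hX, Finset.mem_filter]
        exact ⟨Finset.mem_univ _, by omega, by omega⟩
      have hP : P z w := ⟨hz.symm, by omega, fun h' => hz2 h'.symm⟩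
      have h1 : (if P z w then (q : ℝ) * ((q : ℝ)⁻¹) ^ (G.dist v z) else 0) ≤
          ∑ z ∈ X, if P z w then (q : ℝ) * ((q : ℝ)⁻¹) ^ (G.dist v z) else 0 := by
        apply Finset.single_le_sum (f := fun z => if P z w then (q : ℝ) * ((q : ℝ)⁻¹) ^ (G.dist v z)
          else 0) _ hzX
        intro z _
        show (0 : ℝ) ≤ if P z w then (q : ℝ) * ((q : ℝ)⁻¹) ^ (G.dist v z) else 0
        split_ifs
        · exact mul_nonneg hq0.le (hp _).le
        · exact le_refl _
      rw [if_pos hP] at h1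
      have h2 : (q : ℝ) * ((q : ℝ)⁻¹) ^ (G.dist v z) = ((q : ℝ)⁻¹) ^ (G.dist v w) := by
        rw [hzw, pow_succ]
        field_simp
      have h3 : (0 : ℝ) ≤ (W G v w : ℝ) * ((q : ℝ)⁻¹) ^ (G.dist v w) :=
        mul_nonneg (Nat.cast_nonneg _) (hp _).le
      rw [h2] at h1
      linarith
  calc ∑ w ∈ S, ((q : ℝ)⁻¹) ^ (G.dist v w)
      ≤ ∑ w ∈ S, ((if w ∈ X then (W G v w : ℝ) * ((q : ℝ)⁻¹) ^ (G.dist v w) else 0)
      + ∑ z ∈ X, if P z w then (q : ℝ) * ((q : ℝ)⁻¹) ^ (G.dist v z) else 0) :=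
        Finset.sum_le_sum key
    _ ≤ ∑ w, ((if w ∈ X then (W G v w : ℝ) * ((q : ℝ)⁻¹) ^ (G.dist v w) else 0)
      + ∑ z ∈ X, if P z w then (q : ℝ) * ((q : ℝ)⁻¹) ^ (G.dist v z) else 0) := by
        apply Finset.sum_le_sum_of_subset_of_nonneg (Finset.subset_univ _)
        intro w _ _
        apply add_nonneg
        · split_ifs
          · exact mul_nonneg (Nat.cast_nonneg _) (hp _).le
          · exact le_refl _
        · apply Finset.sum_nonneg
          intro z _
          split_ifs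
          · exact mul_nonneg hq0.le (hp _).le
          · exact le_refl _
    _ = (∑ w ∈ X, (W G v w : ℝ) * ((q : ℝ)⁻¹) ^ (G.dist v w))
      + ∑ z ∈ X, ∑ w, if P z w then (q : ℝ) * ((q : ℝ)⁻¹) ^ (G.dist v z) else 0 := by
        rw [Finset.sum_add_distrib, Finset.sum_comm]
        congr 1
        rw [← Finset.sum_filter]
        apply Finset.sum_congr
        · ext w
          simp
        · intros; rfl
    _ = (1 + (q : ℝ)) * ∑ x ∈ X, (W G v x : ℝ) * ((q : ℝ)⁻¹) ^ (G.dist v x) := by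
        simp only [hW]
        rw [← Finset.mul_sum]
        ring

end Pool.Agent.helper5.RG
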