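import Mathlib
import Pool.Agent.helper5.RG.Par

set_option autoImplicit false

/-!
# RG-5 (Sph): sizes of spheres and balls

PROOFS. `card_sph_succ_le`: induction on `j`; `sph v 1` is contained in the neighbours of `v`; every vertex of
`sph v (j + 2)` is a child of its parent in `sph v (j + 1)`, which has at most `q` children (`card_children_le`).
`card_sph_le`: `|sph v 0| = 1`, and `(q + 1) q ^ j ≤ (3 / 2) q ^ (j + 1)`. `card_bal_le`: the ball is the union of the
spheres; `1 + ∑ (q + 1) q ^ i ≤ 3 q ^ j` by induction (`3 q ^ j + (q + 1) q ^ j ≤ 3 q ^ (j + 1)` as `q + 4 ≤ 3 q`).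
`sum_sph`: a sum over the vertices is the sum over the levels of the sums over the spheres.
-/

namespace Pool.Agent.helper5.RG

open Finset

variable {V : Type*} [Fintype V] [DecidableEq V] (G : SimpleGraph V) [DecidableRel G.Adj]

theorem card_sph_succ_le {q : ℕ} (hc : G.Connected) (hr : G.IsRegularOfDegree (q + 1)) (v : V)
    (j : ℕ) : (sph G v (j + 1)).card ≤ (q + 1) * q ^ j := by
  induction j with
  | zero =>
    have h1 : sph G v (0 + 1) ⊆ G.neighborFinset v := by
      intro x hx
      rw [sph, mem_filter] at hx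
      rw [SimpleGraph.mem_neighborFinset]
      exact SimpleGraph.dist_eq_one_iff_adj.mp hx.2
    calc (sph G v (0 + 1)).card ≤ (G.neighborFinset v).card := card_le_card h1
      _ = q + 1 := by
        rw [SimpleGraph.card_neighborFinset_eq_degree]; exact hr v
      _ = (q + 1) * q ^ 0 := by simp
  | succ j ih =>
    have hdv : G.dist v v = 0 := SimpleGraph.dist_self
    have h1 : sph G v (j + 1 + 1) ⊆ (sph G v (j + 1)).biUnion fun u =>
        univ.filter fun x => par G v x = u ∧ x ≠ v := by
      intro x hx
      rw [sph, mem_filter] at hx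
      have hxv : x ≠ v := by
        rintro rfl
        rw [hdv] at hx
        omega
      have hp := (par_spec G hc hxv).2
      rw [mem_biUnion]
      refine ⟨par G v x, ?_, ?_⟩
      · rw [sph, mem_filter]
        refine ⟨mem_univ _, ?_⟩
        have := hx.2
        omega
      · rw [mem_filter]
        exact ⟨mem_univ _, rfl, hxv⟩
    calc (sph G v (j + 1 + 1)).card
        ≤ ((sph G v (j + 1)).biUnion fun u =>
          univ.filter fun x => par G v x = u ∧ x ≠ v).card := card_le_card h1
      _ ≤ (sph G v (j + 1)).card * q := by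
        apply card_biUnion_le_card_mul
        intro u hu
        rw [sph, mem_filter] at hu
        apply card_children_le G hc hr v u
        rintro rfl
        rw [hdv] at hu
        omega
      _ ≤ ((q + 1) * q ^ j) * q := Nat.mul_le_mul_right _ ih
      _ = (q + 1) * q ^ (j + 1) := by ring

lemma sph_card_zero_le (hc : G.Connected) (v : V) : (sph G v 0).card ≤ 1 := by
  have h1 : sph G v 0 ⊆ {v} := by
    intro x hx
    rw [sph, mem_filter] at hx
    rw [mem_singleton]
    exact (hc.dist_eq_zero_iff.mp hx.2).symm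
  exact (card_le_card h1).trans (by simp)

theorem card_sph_le {q : ℕ} (hq : 2 ≤ q) (hc : G.Connected) (hr : G.IsRegularOfDegree (q + 1))
    (v : V) (j : ℕ) : ((sph G v j).card : ℝ) ≤ 3 / 2 * (q : ℝ) ^ j := by
  have hq' : (2 : ℝ) ≤ q := by exact_mod_cast hq
  cases j with
  | zero =>
    have h := sph_card_zero_le G hc v
    have h' : ((sph G v 0).card : ℝ) ≤ 1 := by exact_mod_cast h
    rw [pow_zero]
    linarith
  | succ j =>
    have h := card_sph_succ_le G hc hr v j
    have h' : ((sph G v (j + 1)).card : ℝ) ≤ (q + 1) * (q : ℝ) ^ j := by exact_mod_cast h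
    have hp : (0 : ℝ) ≤ (q : ℝ) ^ j := by positivity
    rw [pow_succ]
    nlinarith [mul_nonneg hp (by linarith : (0 : ℝ) ≤ (q : ℝ) - 2)]

theorem card_bal_le {q : ℕ} (hq : 2 ≤ q) (hc : G.Connected) (hr : G.IsRegularOfDegree (q + 1))
    (v : V) (j : ℕ) : ((bal G v j).card : ℝ) ≤ 3 * (q : ℝ) ^ j := by
  have hq' : (2 : ℝ) ≤ q := by exact_mod_cast hq
  induction j with
  | zero =>
    have h1 : bal G v 0 ⊆ sph G v 0 := by
      intro x hx
      rw [bal, mem_filter] at hx
      rw [sph, mem_filter]
      exact ⟨hx.1, Nat.le_zero.mp hx.2⟩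
    have h := (card_le_card h1).trans (sph_card_zero_le G hc v)
    have h' : ((bal G v 0).card : ℝ) ≤ 1 := by exact_mod_cast h
    rw [pow_zero]
    linarith
  | succ j ih =>
    have h1 : bal G v (j + 1) ⊆ bal G v j ∪ sph G v (j + 1) := by
      intro x hx
      rw [bal, mem_filter] at hx
      rw [mem_union]
      rcases Nat.lt_or_ge j (G.dist v x) with h | h
      · right
        rw [sph, mem_filter]
        exact ⟨mem_univ _, by omega⟩
      · left
        rw [bal, mem_filter]
        exact ⟨mem_univ _, h⟩
    have h2 := (card_le_card h1).trans (card_union_le _ _)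
    have h3 := card_sph_succ_le G hc hr v j
    have h4 : ((bal G v (j + 1)).card : ℝ) ≤ (bal G v j).card + (sph G v (j + 1)).card := by
      exact_mod_cast h2
    have h5 : ((sph G v (j + 1)).card : ℝ) ≤ (q + 1) * (q : ℝ) ^ j := by exact_mod_cast h3
    have hp : (0 : ℝ) ≤ (q : ℝ) ^ j := by positivity
    rw [pow_succ]
    nlinarith [mul_nonneg hp (by linarith : (0 : ℝ) ≤ (q : ℝ) - 2)]

/-- a radial function which vanishes from level `M` on -/
theorem sum_radial (v : V) (F : ℕ → ℝ) (M : ℕ) (hF : ∀ j, M ≤ j → F j = 0) :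
    ∑ x, F (G.dist v x) = ∑ j ∈ range M, F j * ((sph G v j).card : ℝ) := by
  have h1 : ∑ x, F (G.dist v x) = ∑ x ∈ univ.filter (fun x => G.dist v x ∈ range M),
      F (G.dist v x) := by
    rw [sum_filter]
    apply sum_congr rfl
    intro x _
    split_ifs with h
    · rfl
    · rw [mem_range, not_lt] at h
      exact hF _ h
  rw [h1, ← sum_fiberwise_of_maps_to (s := univ.filter (fun x => G.dist v x ∈ range M))
    (t := range M) (g := fun x => G.dist v x) (fun x hx => (mem_filter.mp hx).2)]
  apply sum_congr rfl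
  intro j hj
  have h2 : (univ.filter (fun x => G.dist v x ∈ range M)).filter (fun x => G.dist v x = j)
      = sph G v j := by
    ext x
    rw [sph, mem_filter, mem_filter, mem_filter]
    constructor
    · rintro ⟨⟨_, _⟩, h⟩
      exact ⟨mem_univ _, h⟩
    · rintro ⟨_, h⟩
      exact ⟨⟨mem_univ _, by rw [h]; exact hj⟩, h⟩
  rw [h2, sum_congr rfl (g := fun _ => F j)]
  · rw [sum_const, nsmul_eq_mul, mul_comm]
  · intro x hx
    rw [sph, mem_filter] at hx
    rw [hx.2]

end Pool.Agent.helper5.RG
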