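import Mathlib
import Pool.Agent.helper5.RG.Sph

set_option autoImplicit false

/-!
# RG-10 (Ide): the quadratic form of a radial function

Notation: `s = (√q)⁻¹`, `f = tf G q g v`, `φ x = f x ^ 2 = g (lev x) ^ 2 s ^ (2 lev x)`, `lev x = dist v x`.

PROOF of `quad_tf_ge`. `f ⬝ᵥ A f = ∑ over ordered adjacent pairs (x, y) of f x f y`. Adjacent levels differ by at most
one. If `lev y = lev x` then `f x f y = φ x`. If `lev y = lev x + 1` then
`2 f x f y = s φ x + s⁻¹ φ y - s ^ (2 lev x + 1) (g (lev y) - g (lev x)) ^ 2`. Hence, adding the pairs `(x, y)` and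
`(y, x)`, `f ⬝ᵥ A f = ∑ over ordered adjacent pairs of H x y` with `H x y = φ x` (same level), `s φ x` minus
`s ^ (2 lev x + 1) (Δ g) ^ 2` (`y` up; all of the difference term is put here), `s⁻¹ φ x` (`y` down). For `x ≠ v` let
`a`, `b`, `c` be the numbers of neighbours on the same level, one level up, one level down; `a + b + c = q + 1`,
`c ≥ 1`, `W v x = a + c - 1`, and
`s b + s⁻¹ c + a - 2 √q = (s⁻¹ - s) (c - 1) + (1 - s) a ≥ (1 - s) W v x` (`√q = s⁻¹`, `s q = s⁻¹`). For `x = v`,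
`φ v = 0`. The difference terms: at most `∑ over j of (g (j + 1) - g j) ^ 2 s ^ (2 j + 1) * e j`, where `e j`, the number of
edges from level `j` to level `j + 1`, is at most `(q + 1) q ^ j` (`b ≤ q` for `x ≠ v`, `b ≤ q + 1` for `x = v`,
`card_sph_succ_le`).
-/

namespace Pool.Agent.helper5.RG

open Finset Matrix

variable {V : Type*} [Fintype V] [DecidableEq V] (G : SimpleGraph V) [DecidableRel G.Adj]

/-- the difference term of a level -/
private noncomputable def dif (s : ℝ) (g : ℕ → ℝ) (j : ℕ) : ℝ :=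
  s ^ (2 * j + 1) * (g (j + 1) - g j) ^ 2

/-- the symmetrised summand of an ordered adjacent pair with levels `i`, `j` -/
private noncomputable def hh (s : ℝ) (g : ℕ → ℝ) (i j : ℕ) : ℝ :=
  if j = i then (g i * s ^ i) ^ 2
  else if j = i + 1 then s * (g i * s ^ i) ^ 2 - dif s g i
  else s⁻¹ * (g i * s ^ i) ^ 2

private theorem hh_symm {s : ℝ} (hs : 0 < s) (g : ℕ → ℝ) {i j : ℕ} (h1 : j ≤ i + 1)
    (h2 : i ≤ j + 1) :
    g i * s ^ i * (g j * s ^ j) + g j * s ^ j * (g i * s ^ i) = hh s g i j + hh s g j i := by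
  have key : ∀ i : ℕ, g i * s ^ i * (g (i + 1) * s ^ (i + 1)) +
      g (i + 1) * s ^ (i + 1) * (g i * s ^ i) = hh s g i (i + 1) + hh s g (i + 1) i := by
    intro i
    have e1 : hh s g i (i + 1) = s * (g i * s ^ i) ^ 2 - dif s g i := by
      unfold hh
      rw [if_neg (by omega), if_pos rfl]
    have e2 : hh s g (i + 1) i = s⁻¹ * (g (i + 1) * s ^ (i + 1)) ^ 2 := by
      unfold hh
      rw [if_neg (by omega), if_neg (by omega)]
    have e3 : s⁻¹ * (g (i + 1) * s ^ (i + 1)) ^ 2 = g (i + 1) ^ 2 * s ^ (2 * i + 1) := by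
      have e4 : (g (i + 1) * s ^ (i + 1)) ^ 2 = s * (g (i + 1) ^ 2 * s ^ (2 * i + 1)) := by ring
      rw [e4, inv_mul_cancel_left₀ hs.ne']
    rw [e1, e2, e3, dif]
    ring
  rcases Nat.lt_trichotomy i j with h | h | h
  · obtain rfl : j = i + 1 := by omega
    exact key i
  · subst h
    have : hh s g i i = (g i * s ^ i) ^ 2 := by
      unfold hh
      rw [if_pos rfl]
    rw [this]
    ring
  · obtain rfl : i = j + 1 := by omega
    have := key j
    rw [add_comm] at this
    rw [this, add_comm]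

/-- the sum over the neighbours of `x` -/
private theorem nbr_ge {q : ℕ} (hc : G.Connected)
    (hr : G.IsRegularOfDegree (q + 1)) (g : ℕ → ℝ) (h0 : g 0 = 0) (v x : V) {s : ℝ}
    (hs : 0 < s) (hs1 : s ≤ 1) (hsq : s * s * q = 1) :
    2 * s⁻¹ * (g (G.dist v x) * s ^ G.dist v x) ^ 2 +
      (1 - s) * ((W G v x : ℝ) * (g (G.dist v x) * s ^ G.dist v x) ^ 2) -
      (if G.dist v x = 0 then (q : ℝ) + 1 else q) * dif s g (G.dist v x) ≤
      ∑ y ∈ G.neighborFinset x, hh s g (G.dist v x) (G.dist v y) := by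
  classical
  set i := G.dist v x with hi
  set P : ℝ := (g i * s ^ i) ^ 2 with hP
  have hP0 : 0 ≤ P := by positivity
  have hd0 : 0 ≤ dif s g i := by unfold dif; positivity
  set Na := (G.neighborFinset x).filter fun y => G.dist v y = i with hNa
  set Nr := (G.neighborFinset x).filter fun y => ¬ G.dist v y = i with hNr
  set Nb := Nr.filter fun y => G.dist v y = i + 1 with hNb
  set Nc := Nr.filter fun y => ¬ G.dist v y = i + 1 with hNc
  have hsum : ∑ y ∈ G.neighborFinset x, hh s g i (G.dist v y) =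
      Na.card * P + (Nb.card * (s * P - dif s g i) + Nc.card * (s⁻¹ * P)) := by
    unfold hh
    rw [sum_ite, sum_ite, sum_const, sum_const, sum_const, nsmul_eq_mul, nsmul_eq_mul,
      nsmul_eq_mul]
  have hcard : Na.card + (Nb.card + Nc.card) = q + 1 := by
    rw [card_filter_add_card_filter_not, card_filter_add_card_filter_not,
      SimpleGraph.card_neighborFinset_eq_degree]
    exact hr x
  have hcardR : (Na.card : ℝ) + (Nb.card + Nc.card) = q + 1 := by exact_mod_cast hcard
  rw [hsum]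
  by_cases hxv : x = v
  · -- the root
    have hi0 : i = 0 := by rw [hi, hxv, SimpleGraph.dist_self]
    have hPz : P = 0 := by rw [hP, hi0, h0]; simp
    rw [if_pos hi0, hPz]
    have hb : (Nb.card : ℝ) ≤ q + 1 := by
      have h1 : (0 : ℝ) ≤ Na.card := Nat.cast_nonneg _
      have h2 : (0 : ℝ) ≤ Nc.card := Nat.cast_nonneg _
      linarith
    nlinarith [mul_le_mul_of_nonneg_right hb hd0]
  · have hi0 : i ≠ 0 := by
      intro h
      exact hxv (hc.dist_eq_zero_iff.mp h).symm
    rw [if_neg hi0]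
    obtain ⟨hpa, hpd⟩ := par_spec G hc hxv
    rw [← hi] at hpd
    have hpc : par G v x ∈ Nc := by
      rw [hNc, mem_filter, hNr, mem_filter, SimpleGraph.mem_neighborFinset]
      exact ⟨⟨hpa, by omega⟩, by omega⟩
    have hW : W G v x + 1 ≤ Na.card + Nc.card := by
      unfold W
      have hnot : par G v x ∉ univ.filter fun z => G.Adj x z ∧ G.dist v z ≤ G.dist v x ∧
          z ≠ par G v x := by
        rw [mem_filter]
        rintro ⟨-, -, -, h⟩
        exact h rfl
      rw [← card_insert_of_notMem hnot]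
      refine (card_le_card ?_).trans (card_union_le Na Nc)
      intro z hz
      rw [mem_insert, mem_filter] at hz
      rw [mem_union]
      rcases hz with rfl | ⟨-, hz1, hz2, -⟩
      · exact Or.inr hpc
      · rw [← hi] at hz2
        by_cases hz3 : G.dist v z = i
        · left
          rw [hNa, mem_filter, SimpleGraph.mem_neighborFinset]
          exact ⟨hz1, hz3⟩
        · right
          rw [hNc, mem_filter, hNr, mem_filter, SimpleGraph.mem_neighborFinset]
          exact ⟨⟨hz1, hz3⟩, by omega⟩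
    have hc1 : 1 ≤ Nc.card := card_pos.2 ⟨_, hpc⟩
    have hWR : (W G v x : ℝ) + 1 ≤ Na.card + Nc.card := by exact_mod_cast hW
    have hc1R : (1 : ℝ) ≤ Nc.card := by exact_mod_cast hc1
    have ha0 : (0 : ℝ) ≤ Na.card := Nat.cast_nonneg _
    have hb : (Nb.card : ℝ) ≤ q := by linarith
    -- the coefficient of `P`
    have hsi : s * q = s⁻¹ := by
      field_simp
      linarith [hsq]
    have hsi1 : 1 ≤ s⁻¹ := (one_le_inv₀ hs).2 hs1
    have hcoef : 2 * s⁻¹ + (1 - s) * (W G v x : ℝ) ≤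
        Na.card + Nb.card * s + Nc.card * s⁻¹ := by
      have hNbR : (Nb.card : ℝ) = q + 1 - Na.card - Nc.card := by linarith
      rw [hNbR]
      have e : (Na.card : ℝ) + ((q : ℝ) + 1 - Na.card - Nc.card) * s + Nc.card * s⁻¹ =
          2 * s⁻¹ + ((1 - s) * Na.card + (s⁻¹ - s) * (Nc.card - 1)) + (s * q - s⁻¹) := by ring
      rw [e, hsi, sub_self, add_zero]
      have h1 : (1 - s) * ((Nc.card : ℝ) - 1) ≤ (s⁻¹ - s) * (Nc.card - 1) :=
        mul_le_mul_of_nonneg_right (by linarith) (by linarith)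
      have h2 : (1 - s) * (W G v x : ℝ) ≤ (1 - s) * (Na.card + (Nc.card - 1)) :=
        mul_le_mul_of_nonneg_left (by linarith) (by linarith)
      nlinarith
    have h3 := mul_le_mul_of_nonneg_right hcoef hP0
    have h4 := mul_le_mul_of_nonneg_right hb hd0
    nlinarith

theorem quad_tf_ge {q : ℕ} (hq : 2 ≤ q) (hc : G.Connected) (hr : G.IsRegularOfDegree (q + 1))
    (g : ℕ → ℝ) (h0 : g 0 = 0) {M : ℕ} (hgM : ∀ j, M ≤ j → g j = 0) (v : V) :
    (1 - (Real.sqrt q)⁻¹) * ∑ x, (W G v x : ℝ) * tf G q g v x ^ 2 -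
        ((q : ℝ) + 1) * (Real.sqrt q)⁻¹ * ∑ j ∈ range M, (g (j + 1) - g j) ^ 2 ≤
      tf G q g v ⬝ᵥ (G.adjMatrix ℝ).mulVec (tf G q g v) -
        2 * Real.sqrt q * (tf G q g v ⬝ᵥ tf G q g v) := by
  classical
  have hq2 : (2 : ℝ) ≤ q := by exact_mod_cast hq
  have hrt : 0 < Real.sqrt q := Real.sqrt_pos.2 (by linarith)
  have hrt1 : 1 ≤ Real.sqrt q := by
    rw [Real.one_le_sqrt]
    linarith
  obtain ⟨s, hs⟩ : ∃ s : ℝ, s = (Real.sqrt q)⁻¹ := ⟨_, rfl⟩
  have hs0 : 0 < s := by rw [hs]; positivity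
  have hs1 : s ≤ 1 := by rw [hs]; exact inv_le_one_of_one_le₀ hrt1
  have hinv : Real.sqrt q = s⁻¹ := by rw [hs, inv_inv]
  have hsq : s * s * q = 1 := by
    have h := Real.mul_self_sqrt (show (0 : ℝ) ≤ q by linarith)
    rw [hinv] at h
    rw [← h]
    field_simp
  have htf : ∀ x, tf G q g v x = g (G.dist v x) * s ^ G.dist v x := by
    intro x
    unfold tf
    rw [hs]
  rw [← hs, hinv]
  -- the quadratic form as a sum over ordered adjacent pairs
  have e1 : tf G q g v ⬝ᵥ (G.adjMatrix ℝ).mulVec (tf G q g v) =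
      ∑ x, ∑ y, if G.Adj x y then tf G q g v x * tf G q g v y else 0 := by
    unfold dotProduct
    refine sum_congr rfl fun x _ => ?_
    rw [SimpleGraph.adjMatrix_mulVec_apply, mul_sum, ← sum_filter]
    refine sum_congr ?_ fun _ _ => rfl
    ext y
    simp
  have e2 : (∑ x, ∑ y, if G.Adj x y then tf G q g v x * tf G q g v y else 0) =
      ∑ x, ∑ y, if G.Adj x y then hh s g (G.dist v x) (G.dist v y) else 0 := by
    have e3 : (∑ x, ∑ y, if G.Adj x y then tf G q g v x * tf G q g v y else 0) =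
        ∑ x, ∑ y, if G.Adj x y then tf G q g v y * tf G q g v x else 0 := by
      refine sum_congr rfl fun x _ => sum_congr rfl fun y _ => ?_
      rw [mul_comm]
    have e4 : (∑ x, ∑ y, if G.Adj x y then hh s g (G.dist v x) (G.dist v y) else 0) =
        ∑ x, ∑ y, if G.Adj x y then hh s g (G.dist v y) (G.dist v x) else 0 := by
      rw [sum_comm]
      refine sum_congr rfl fun x _ => sum_congr rfl fun y _ => ?_
      simp only [G.adj_comm y x]
    have e5 : (∑ x, ∑ y, if G.Adj x y then tf G q g v x * tf G q g v y else 0) +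
        (∑ x, ∑ y, if G.Adj x y then tf G q g v y * tf G q g v x else 0) =
        (∑ x, ∑ y, if G.Adj x y then hh s g (G.dist v x) (G.dist v y) else 0) +
        ∑ x, ∑ y, if G.Adj x y then hh s g (G.dist v y) (G.dist v x) else 0 := by
      rw [← sum_add_distrib, ← sum_add_distrib]
      refine sum_congr rfl fun x _ => ?_
      rw [← sum_add_distrib, ← sum_add_distrib]
      refine sum_congr rfl fun y _ => ?_
      by_cases h : G.Adj x y
      · rw [if_pos h, if_pos h, if_pos h, if_pos h, htf, htf]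
        exact hh_symm hs0 g (dist_adj_le G hc v h) (dist_adj_le G hc v h.symm)
      · rw [if_neg h, if_neg h, if_neg h, if_neg h]
    rw [← e3, ← e4] at e5
    linarith
  have e6 : ∀ x, (∑ y, if G.Adj x y then hh s g (G.dist v x) (G.dist v y) else 0) =
      ∑ y ∈ G.neighborFinset x, hh s g (G.dist v x) (G.dist v y) := by
    intro x
    rw [← sum_filter]
    refine sum_congr ?_ fun _ _ => rfl
    ext y
    simp
  have e7 : tf G q g v ⬝ᵥ tf G q g v = ∑ x, (g (G.dist v x) * s ^ G.dist v x) ^ 2 := by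
    unfold dotProduct
    refine sum_congr rfl fun x _ => ?_
    rw [htf]
    ring
  -- sum of the lower bounds
  have e8 : ∑ x, (2 * s⁻¹ * (g (G.dist v x) * s ^ G.dist v x) ^ 2 +
      (1 - s) * ((W G v x : ℝ) * (g (G.dist v x) * s ^ G.dist v x) ^ 2) -
      (if G.dist v x = 0 then (q : ℝ) + 1 else q) * dif s g (G.dist v x)) ≤
      ∑ x, ∑ y ∈ G.neighborFinset x, hh s g (G.dist v x) (G.dist v y) :=
    sum_le_sum fun x _ => nbr_ge G hc hr g h0 v x hs0 hs1 hsq
  -- the difference terms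
  have e9 : ∑ x, (if G.dist v x = 0 then (q : ℝ) + 1 else q) * dif s g (G.dist v x) ≤
      ((q : ℝ) + 1) * s * ∑ j ∈ range M, (g (j + 1) - g j) ^ 2 := by
    rw [sum_radial G v (fun j => (if j = 0 then (q : ℝ) + 1 else q) * dif s g j) M (by
      intro j hj
      have h1 := hgM j hj
      have h2 := hgM (j + 1) (by omega)
      simp only [dif, h1, h2, sub_self]
      ring), mul_sum]
    refine sum_le_sum fun j _ => ?_
    have hD : 0 ≤ (g (j + 1) - g j) ^ 2 := sq_nonneg _
    cases j with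
    | zero =>
      have h1 : ((sph G v 0).card : ℝ) ≤ 1 := by exact_mod_cast sph_card_zero_le G hc v
      simp only [if_true, dif, mul_zero, zero_add, pow_one]
      have h2 : 0 ≤ ((q : ℝ) + 1) * (s * (g 1 - g 0) ^ 2) := by positivity
      calc ((q : ℝ) + 1) * (s * (g 1 - g 0) ^ 2) * ((sph G v 0).card : ℝ)
          ≤ ((q : ℝ) + 1) * (s * (g 1 - g 0) ^ 2) * 1 := mul_le_mul_of_nonneg_left h1 h2
        _ = ((q : ℝ) + 1) * s * (g 1 - g 0) ^ 2 := by ring
    | succ j =>
      have h1 : ((sph G v (j + 1)).card : ℝ) ≤ ((q : ℝ) + 1) * (q : ℝ) ^ j := by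
        exact_mod_cast card_sph_succ_le G hc hr v j
      simp only [if_neg (Nat.succ_ne_zero j), dif]
      have h2 : 0 ≤ (q : ℝ) * (s ^ (2 * (j + 1) + 1) * (g (j + 1 + 1) - g (j + 1)) ^ 2) := by
        positivity
      have h3 : (q : ℝ) * s ^ (2 * (j + 1) + 1) * (q : ℝ) ^ j = s := by
        have h4 : (q : ℝ) * s ^ (2 * (j + 1) + 1) * (q : ℝ) ^ j = s * (s * s * q) ^ (j + 1) := by
          rw [mul_pow, mul_pow]
          ring
        rw [h4, hsq, one_pow, mul_one]
      calc (q : ℝ) * (s ^ (2 * (j + 1) + 1) * (g (j + 1 + 1) - g (j + 1)) ^ 2) *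
            ((sph G v (j + 1)).card : ℝ)
          ≤ (q : ℝ) * (s ^ (2 * (j + 1) + 1) * (g (j + 1 + 1) - g (j + 1)) ^ 2) *
            (((q : ℝ) + 1) * (q : ℝ) ^ j) := mul_le_mul_of_nonneg_left h1 h2
        _ = ((q : ℝ) + 1) * ((q : ℝ) * s ^ (2 * (j + 1) + 1) * (q : ℝ) ^ j) *
            (g (j + 1 + 1) - g (j + 1)) ^ 2 := by ring
        _ = ((q : ℝ) + 1) * s * (g (j + 1 + 1) - g (j + 1)) ^ 2 := by rw [h3]
  rw [sum_sub_distrib, sum_add_distrib, ← mul_sum, ← mul_sum] at e8
  rw [e1, e2, e7]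
  simp only [e6]
  have e10 : ∑ x, (W G v x : ℝ) * tf G q g v x ^ 2 =
      ∑ x, (W G v x : ℝ) * (g (G.dist v x) * s ^ G.dist v x) ^ 2 :=
    sum_congr rfl fun x _ => by rw [htf]
  rw [e10]
  linarith

end Pool.Agent.helper5.RG
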