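import Mathlib
import Pool.Agent.helper5.RG.Defs

set_option autoImplicit false

/-!
# RG-1 (Bas): the spectral decomposition of the adjacency matrix

PROOF. `A = G.adjMatrix ℝ` is symmetric (`Matrix.IsHermitian`), take `u i` the eigenvector basis
(`Matrix.IsHermitian.eigenvectorBasis`, `eigenvalues`), so that Parseval and the formula for
`f ⬝ᵥ A f` hold. `con_of_eig`: `L = D - A` kills an eigenvector for `d`, hence it is constant
(`SimpleGraph.lapMatrix_mulVec_eq_zero_iff_forall_reachable`). `sq_of_eig_neg`: if `A x = - d x` then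
`∑ over ordered adjacent pairs of (x i + x j) ^ 2 = 2 d ∑ x ^ 2 + 2 x ⬝ᵥ A x = 0`, so `x j = - x i` for adjacent
`i`, `j` and `x i ^ 2` is constant. For the last two items of `exists_basis`: let `e = d` or `- d` and
`w = ∑ over i with l i = e of u i v • u i`. Then `A w = e w`, so `w x ^ 2 = w v ^ 2` for all `x`; and
`w v = ∑ (u i v) ^ 2 = w ⬝ᵥ w = N * w v ^ 2` (orthonormality), so `w v = 0` or `w v = 1 / N`.
-/

namespace Pool.Agent.helper5.RG

open Finset Matrix

variable {V : Type*} [Fintype V] [DecidableEq V] (G : SimpleGraph V) [DecidableRel G.Adj]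

lemma con_of_eig {d : ℕ} (hc : G.Connected) (hr : G.IsRegularOfDegree d) {x : V → ℝ}
    (hx : (G.adjMatrix ℝ).mulVec x = (d : ℝ) • x) (a b : V) : x a = x b := by
  have h0 : (G.lapMatrix ℝ).mulVec x = 0 := by
    ext v
    have h1 := congrFun hx v
    rw [SimpleGraph.adjMatrix_mulVec_apply] at h1
    rw [SimpleGraph.lapMatrix_mulVec_apply, h1, hr.degree_eq v]
    simp
  exact (SimpleGraph.lapMatrix_mulVec_eq_zero_iff_forall_reachable G).1 h0 a b
    (hc.preconnected a b)

lemma sq_of_eig_neg {d : ℕ} (hc : G.Connected) (hr : G.IsRegularOfDegree d) {x : V → ℝ}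
    (hx : (G.adjMatrix ℝ).mulVec x = (-(d : ℝ)) • x) (a b : V) : x a ^ 2 = x b ^ 2 := by
  have hsum : ∑ i, ∑ j ∈ G.neighborFinset i, (x i + x j) ^ 2 = 0 := by
    have h1 : ∀ i, ∑ j ∈ G.neighborFinset i, (x i + x j) ^ 2
        = (d : ℝ) * x i ^ 2 + 2 * x i * (∑ j ∈ G.neighborFinset i, x j)
          + ∑ j ∈ G.neighborFinset i, x j ^ 2 := by
      intro i
      have : ∀ j, (x i + x j) ^ 2 = x i ^ 2 + 2 * x i * x j + x j ^ 2 := fun j => by ring
      simp only [this]
      rw [Finset.sum_add_distrib, Finset.sum_add_distrib, Finset.sum_const, ← Finset.mul_sum,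
        SimpleGraph.card_neighborFinset_eq_degree, hr.degree_eq i, nsmul_eq_mul]
    have h2 : ∀ i, ∑ j ∈ G.neighborFinset i, x j = -(d : ℝ) * x i := by
      intro i
      have := congrFun hx i
      rw [SimpleGraph.adjMatrix_mulVec_apply] at this
      rw [this]
      simp
    have h3 : ∑ i, ∑ j ∈ G.neighborFinset i, x j ^ 2 = (d : ℝ) * ∑ j, x j ^ 2 := by
      have e1 : ∀ i, ∑ j ∈ G.neighborFinset i, x j ^ 2 = ∑ j, if G.Adj i j then x j ^ 2 else 0 := by
        intro i
        rw [← Finset.sum_filter]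
        apply Finset.sum_congr
        · ext j
          simp
        · intros; rfl
      simp only [e1]
      rw [Finset.sum_comm, Finset.mul_sum]
      apply Finset.sum_congr rfl
      intro j _
      rw [← Finset.sum_filter, Finset.sum_const, nsmul_eq_mul]
      congr 2
      rw [← hr.degree_eq j, ← SimpleGraph.card_neighborFinset_eq_degree]
      congr 1
      ext i
      simp [SimpleGraph.adj_comm]
    simp only [h1, h2]
    rw [Finset.sum_add_distrib, h3, Finset.sum_add_distrib, ← Finset.mul_sum]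
    have : ∑ i, 2 * x i * (-(d : ℝ) * x i) = -2 * d * ∑ i, x i ^ 2 := by
      rw [Finset.mul_sum]
      apply Finset.sum_congr rfl
      intro i _
      ring
    rw [this]
    ring
  have hadj : ∀ i j, G.Adj i j → x i ^ 2 = x j ^ 2 := by
    intro i j hij
    rw [Finset.sum_eq_zero_iff_of_nonneg
      (fun i _ => Finset.sum_nonneg fun j _ => sq_nonneg _)] at hsum
    have h1 := hsum i (Finset.mem_univ _)
    rw [Finset.sum_eq_zero_iff_of_nonneg (fun j _ => sq_nonneg _)] at h1
    have h2 := h1 j (by simpa using hij)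
    have h3 : x i + x j = 0 := by simpa using h2
    have h4 : x i = - x j := by linarith
    rw [h4]
    ring
  have hreach : ∀ i j, G.Reachable i j → x i ^ 2 = x j ^ 2 := by
    intro i j hij
    obtain ⟨p⟩ := hij
    induction p with
    | nil => rfl
    | cons h _ ih => exact (hadj _ _ h).trans ih
  exact hreach a b (hc.preconnected a b)

theorem exists_basis {d : ℕ} {L : ℝ} (hc : G.Connected) (hr : G.IsRegularOfDegree d)
    (hs : Spec G d L) :
    ∃ (u : V → V → ℝ) (l : V → ℝ),
      (∀ i, (G.adjMatrix ℝ).mulVec (u i) = l i • u i) ∧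
      (∀ f : V → ℝ, ∑ i, (u i ⬝ᵥ f) ^ 2 = f ⬝ᵥ f) ∧
      (∀ f : V → ℝ, f ⬝ᵥ (G.adjMatrix ℝ).mulVec f = ∑ i, l i * (u i ⬝ᵥ f) ^ 2) ∧
      (∀ i, |l i| = (d : ℝ) ∨ |l i| ≤ L) ∧
      (∀ v, ∑ i with l i = (d : ℝ), u i v ^ 2 ≤ 1 / (Fintype.card V : ℝ)) ∧
      (∀ v, ∑ i with l i = -(d : ℝ), u i v ^ 2 ≤ 1 / (Fintype.card V : ℝ)) ∧
      (∀ i, l i = (d : ℝ) → ∀ a b, u i a = u i b) := by
  classical
  have hA : (G.adjMatrix ℝ).IsHermitian := by
    have := G.isSymm_adjMatrix (α := ℝ)
    rw [Matrix.IsHermitian, Matrix.conjTranspose_eq_transpose_of_trivial]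
    exact this
  have hin : ∀ f g : EuclideanSpace ℝ V, inner ℝ f g = (f : V → ℝ) ⬝ᵥ (g : V → ℝ) := by
    intro f g
    rw [PiLp.inner_apply]
    simp only [dotProduct]
    apply Finset.sum_congr rfl
    intro i _
    simp [mul_comm]
  set bb := hA.eigenvectorBasis with hbb
  set u : V → V → ℝ := fun i => (bb i : V → ℝ) with hu
  set l := hA.eigenvalues with hl
  have hev : ∀ i, (G.adjMatrix ℝ).mulVec (u i) = l i • u i := fun i =>
    hA.mulVec_eigenvectorBasis i
  have hort : ∀ i j, u i ⬝ᵥ u j = if i = j then 1 else 0 := by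
    intro i j
    rw [← orthonormal_iff_ite.1 bb.orthonormal i j, hin]
  have hpar2 : ∀ f g : V → ℝ, ∑ i, (u i ⬝ᵥ f) * (u i ⬝ᵥ g) = f ⬝ᵥ g := by
    intro f g
    have := bb.sum_inner_mul_inner (WithLp.toLp 2 f) (WithLp.toLp 2 g)
    rw [hin] at this
    simp only [hin] at this
    rw [← this]
    apply Finset.sum_congr rfl
    intro i _
    rw [dotProduct_comm (u i) f]
  have hpar : ∀ f : V → ℝ, ∑ i, (u i ⬝ᵥ f) ^ 2 = f ⬝ᵥ f := by
    intro f
    rw [← hpar2 f f]
    apply Finset.sum_congr rfl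
    intro i _
    ring
  have hsymm : ∀ f g : V → ℝ, f ⬝ᵥ (G.adjMatrix ℝ).mulVec g = (G.adjMatrix ℝ).mulVec f ⬝ᵥ g := by
    intro f g
    rw [Matrix.dotProduct_mulVec, ← Matrix.mulVec_transpose, SimpleGraph.transpose_adjMatrix]
  have hne : ∀ i, u i ≠ 0 := by
    intro i h
    have := hort i i
    rw [h] at this
    simp at this
  have hmain : ∀ e : ℝ, (∀ x : V → ℝ, (G.adjMatrix ℝ).mulVec x = e • x →
      ∀ a b, x a ^ 2 = x b ^ 2) → ∀ v, ∑ i with l i = e, u i v ^ 2 ≤ 1 / (Fintype.card V : ℝ) := by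
    intro e he v
    set w : V → ℝ := ∑ i with l i = e, u i v • u i with hw
    have hAw : (G.adjMatrix ℝ).mulVec w = e • w := by
      rw [hw, Matrix.mulVec_sum, Finset.smul_sum]
      apply Finset.sum_congr rfl
      intro i hi
      rw [Matrix.mulVec_smul, hev, (Finset.mem_filter.1 hi).2, smul_comm]
    have hwv : w v = ∑ i with l i = e, u i v ^ 2 := by
      rw [hw, Finset.sum_apply]
      apply Finset.sum_congr rfl
      intro i _
      simp [sq]
    have hww : w ⬝ᵥ w = w v := by
      have h1 : ∀ j, u j ⬝ᵥ w = if l j = e then u j v else 0 := by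
        intro j
        rw [hw, dotProduct_sum]
        simp only [dotProduct_smul, hort, smul_eq_mul]
        simp [Finset.sum_ite_eq, Finset.mem_filter]
      rw [← hpar w, hwv]
      simp only [h1]
      rw [Finset.sum_filter]
      apply Finset.sum_congr rfl
      intro i _
      split_ifs <;> simp
    have hsq : w ⬝ᵥ w = (Fintype.card V : ℝ) * w v ^ 2 := by
      simp only [dotProduct]
      have : ∀ i, w i * w i = w v ^ 2 := by
        intro i
        rw [← he w hAw i v]
        ring
      simp only [this]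
      simp
    have hN : (0 : ℝ) < Fintype.card V := by
      have : Nonempty V := ⟨v⟩
      exact_mod_cast Fintype.card_pos
    rw [← hwv]
    rw [hsq] at hww
    rcases eq_or_ne (w v) 0 with h0 | h0
    · rw [h0]
      positivity
    · have : (Fintype.card V : ℝ) * w v = 1 := by
        have h2 : w v * ((Fintype.card V : ℝ) * w v) = w v * 1 := by
          rw [mul_one]
          linarith [hww]
        exact mul_left_cancel₀ h0 h2
      rw [le_div_iff₀ hN]
      linarith
  refine ⟨u, l, hev, hpar, ?_, ?_, ?_, ?_, ?_⟩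
  · intro f
    rw [← hpar2]
    apply Finset.sum_congr rfl
    intro i _
    rw [hsymm, hev, smul_dotProduct, smul_eq_mul]
    ring
  · intro i
    exact hs (l i) ⟨u i, hne i, hev i⟩
  · refine hmain d fun x hx a b => ?_
    rw [con_of_eig G hc hr hx a b]
  · exact hmain _ fun x hx a b => sq_of_eig_neg G hc hr hx a b
  · intro i hi a b
    exact con_of_eig G hc hr (hi ▸ hev i) a b

end Pool.Agent.helper5.RG
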