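import Mathlib
import Pool.Agent.helper5.RG.Bas

set_option autoImplicit false

/-!
# RG-2 (Qua): the quadratic form

PROOF of `quad_le`. Use `exists_basis` (RG-1). `f ⬝ᵥ A f = ∑ l i c i ^ 2`, `c i = u i ⬝ᵥ f`.
If `|l i| ≤ L` the term is at most `L c i ^ 2`; if `l i = - d` it is at most `0 ≤ L c i ^ 2`; if `l i = d`, then
`u i` is constant, `c i = u i v * ∑ f`, and the term is at most `L c i ^ 2 + d c i ^ 2`; the sum of
`(u i v) ^ 2` over these `i` is at most `1 / N`.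
-/

namespace Pool.Agent.helper5.RG

open Finset Matrix

variable {V : Type*} [Fintype V] [DecidableEq V] (G : SimpleGraph V) [DecidableRel G.Adj]

theorem quad_le {d : ℕ} {L : ℝ} (hL : 0 ≤ L) (hc : G.Connected) (hr : G.IsRegularOfDegree d)
    (hs : Spec G d L) (f : V → ℝ) :
    f ⬝ᵥ (G.adjMatrix ℝ).mulVec f ≤
      L * (f ⬝ᵥ f) + d * (∑ x, f x) ^ 2 / (Fintype.card V : ℝ) := by
  classical
  obtain ⟨u, l, -, hpar, hquad, hl, hd, -, hcon⟩ := exists_basis G hc hr hs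
  obtain ⟨v⟩ := hc.nonempty
  have hd0 : (0 : ℝ) ≤ (d : ℝ) := Nat.cast_nonneg d
  have hterm : ∀ i, l i * (u i ⬝ᵥ f) ^ 2 ≤
      L * (u i ⬝ᵥ f) ^ 2 + if l i = (d : ℝ) then (d : ℝ) * (u i ⬝ᵥ f) ^ 2 else 0 := by
    intro i
    have h0 : 0 ≤ (u i ⬝ᵥ f) ^ 2 := sq_nonneg _
    split_ifs with h
    · rw [h]
      nlinarith [mul_nonneg hL h0]
    · have hle : l i ≤ L := by
        rcases hl i with h1 | h1
        · rcases abs_eq hd0 |>.1 h1 with h2 | h2
          · exact absurd h2 h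
          · linarith
        · exact (le_abs_self _).trans h1
      nlinarith [mul_le_mul_of_nonneg_right hle h0]
  have hdot : ∀ i, l i = (d : ℝ) → u i ⬝ᵥ f = u i v * ∑ x, f x := by
    intro i hi
    simp only [dotProduct]
    rw [Finset.mul_sum]
    exact Finset.sum_congr rfl fun x _ => by rw [hcon i hi x v]
  calc f ⬝ᵥ (G.adjMatrix ℝ).mulVec f = ∑ i, l i * (u i ⬝ᵥ f) ^ 2 := hquad f
    _ ≤ ∑ i, (L * (u i ⬝ᵥ f) ^ 2 + if l i = (d : ℝ) then (d : ℝ) * (u i ⬝ᵥ f) ^ 2 else 0) :=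
        Finset.sum_le_sum fun i _ => hterm i
    _ = L * (f ⬝ᵥ f) + ∑ i with l i = (d : ℝ), (d : ℝ) * (u i ⬝ᵥ f) ^ 2 := by
        rw [Finset.sum_add_distrib, ← Finset.mul_sum, hpar, Finset.sum_filter]
    _ = L * (f ⬝ᵥ f) + d * ((∑ i with l i = (d : ℝ), u i v ^ 2) * (∑ x, f x) ^ 2) := by
        congr 1
        rw [Finset.sum_mul, Finset.mul_sum]
        apply Finset.sum_congr rfl
        intro i hi
        rw [hdot i (Finset.mem_filter.1 hi).2, mul_pow]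
    _ ≤ L * (f ⬝ᵥ f) + d * (1 / (Fintype.card V : ℝ) * (∑ x, f x) ^ 2) := by
        have h1 := mul_le_mul_of_nonneg_right (hd v) (sq_nonneg (∑ x, f x))
        have h2 := mul_le_mul_of_nonneg_left h1 hd0
        linarith
    _ = L * (f ⬝ᵥ f) + d * (∑ x, f x) ^ 2 / (Fintype.card V : ℝ) := by
        ring

end Pool.Agent.helper5.RG
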