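import Mathlib

set_option autoImplicit false

/-!
# RG-6 (Che): Chebyshev polynomials at `(q + 1) / (2 √q + η)`

PROOF. For `ρ ≥ 1`: `T_k ((ρ + ρ⁻¹) / 2) = (ρ ^ k + ρ⁻¹ ^ k) / 2` (recursion), and `T_k` is monotone on `[1, ∞)`
(e.g. every `x ≥ 1` is `(ρ + ρ⁻¹) / 2` with `ρ = x + √(x ^ 2 - 1)`, and `ρ ↦ ρ ^ k + ρ⁻¹ ^ k` is monotone for
`ρ ≥ 1`). Upper bound: `(q + 1) / (2 √q + η) ≤ (q + 1) / (2 √q) = (√q + √q⁻¹) / 2`. Lower bound: with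
`ρ = √q (1 - 2 / M ^ 2)` one has `(ρ + ρ⁻¹) / 2 ≤ (q + 1) / (2 √q + η)` (as `η ≤ 1 / M ^ 2`, `M ≥ 4`:
`√q + √q⁻¹ - ρ - ρ⁻¹ = δ (√q - √q⁻¹ / (1 - δ)) ≥ 0.6 δ`, `δ = 2 / M ^ 2`, and
`√q + √q⁻¹ - 2 (q + 1) / (2 √q + η) ≤ (q + 1) η / (2 q) ≤ 3 / (4 M ^ 2)`), `ρ ≥ 1`, and
`ρ ^ k ≥ √q ^ k (1 - 2 k / M ^ 2) ≥ √q ^ k / 2` (Bernoulli).
-/

namespace Pool.Agent.helper5.RG

open Polynomial

private theorem T_mono {x y : ℝ} (hx : 1 ≤ x) (hxy : x ≤ y) (k : ℕ) :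
    (Chebyshev.T ℝ k).eval x ≤ (Chebyshev.T ℝ k).eval y := by
  have hy : 1 ≤ y := hx.trans hxy
  have h1 := Chebyshev.T_real_cosh (Real.arcosh x) (k : ℤ)
  have h2 := Chebyshev.T_real_cosh (Real.arcosh y) (k : ℤ)
  rw [Real.cosh_arcosh hx] at h1
  rw [Real.cosh_arcosh hy] at h2
  rw [h1, h2, Real.cosh_le_cosh, abs_mul, abs_mul]
  refine mul_le_mul_of_nonneg_left ?_ (abs_nonneg _)
  rw [← Real.cosh_le_cosh, Real.cosh_arcosh hx, Real.cosh_arcosh hy]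
  exact hxy

private theorem T_rho {ρ : ℝ} (hρ : 0 < ρ) (k : ℕ) :
    (Chebyshev.T ℝ k).eval ((ρ + ρ⁻¹) / 2) = (ρ ^ k + (ρ ^ k)⁻¹) / 2 := by
  have h1 := Chebyshev.T_real_cosh (Real.log ρ) (k : ℤ)
  rw [Real.cosh_log hρ] at h1
  rw [h1, ← Real.cosh_log (pow_pos hρ k), Real.log_pow]
  push_cast
  rfl

theorem cheb_bounds {q : ℝ} (hq : 2 ≤ q) {η : ℝ} (hη : 0 ≤ η) {M : ℕ} (hM : 4 ≤ M)
    (hηM : η * (M : ℝ) ^ 2 ≤ 1) {k : ℕ} (hk : k ≤ M) :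
    Real.sqrt q ^ k / 4 ≤ (Chebyshev.T ℝ k).eval ((q + 1) / (2 * Real.sqrt q + η)) ∧
      (Chebyshev.T ℝ k).eval ((q + 1) / (2 * Real.sqrt q + η)) ≤ Real.sqrt q ^ k := by
  obtain ⟨s, hs⟩ : ∃ s, s = Real.sqrt q := ⟨_, rfl⟩
  have hsq : s ^ 2 = q := by rw [hs, Real.sq_sqrt (by linarith)]
  have hs0 : 0 ≤ s := by rw [hs]; exact Real.sqrt_nonneg q
  have hs1 : 1.4 ≤ s := by
    by_contra hcon
    push Not at hcon
    nlinarith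
  rw [← hs, ← hsq]
  have hM4 : (4 : ℝ) ≤ M := by exact_mod_cast hM
  have hM0 : (0 : ℝ) < M := by linarith
  have hM2 : (16 : ℝ) ≤ (M : ℝ) ^ 2 := by nlinarith
  obtain ⟨δ, hδ⟩ : ∃ δ : ℝ, δ = 2 / (M : ℝ) ^ 2 := ⟨_, rfl⟩
  have hδM : δ * (M : ℝ) ^ 2 = 2 := by
    rw [hδ]
    exact div_mul_cancel₀ _ (by positivity)
  have hδ0 : 0 < δ := by rw [hδ]; positivity
  have hδ1 : δ ≤ 1 / 8 := by
    rw [hδ, div_le_iff₀ (by positivity)]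
    linarith
  have hηδ : 2 * η ≤ δ := by
    rw [hδ, le_div_iff₀ (by positivity)]
    linarith
  obtain ⟨ρ, hρ⟩ : ∃ ρ : ℝ, ρ = s * (1 - δ) := ⟨_, rfl⟩
  have hρ1 : 1 ≤ ρ := by
    rw [hρ]
    nlinarith
  have hρ0 : 0 < ρ := by linarith
  have hρs : ρ ≤ s := by
    rw [hρ]
    nlinarith
  have hden : 0 < 2 * s + η := by linarith
  have hs0' : 0 < s := by linarith
  -- the upper bound for the argument
  have hx2 : (s ^ 2 + 1) / (2 * s + η) ≤ (s + s⁻¹) / 2 := by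
    have e : (s + s⁻¹) / 2 = (s ^ 2 + 1) / (2 * s) := by
      field_simp
    rw [e]
    apply div_le_div_of_nonneg_left (by positivity) (by positivity)
    linarith
  -- the lower bound for the argument
  have hx1 : (ρ + ρ⁻¹) / 2 ≤ (s ^ 2 + 1) / (2 * s + η) := by
    rw [div_le_div_iff₀ two_pos hden]
    have hρi : ρ⁻¹ ≤ 1 := inv_le_one_of_one_le₀ hρ1
    have hρi0 : 0 < ρ⁻¹ := inv_pos.2 hρ0
    have h1 : ρ⁻¹ * s * (1 - δ) = 1 := by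
      rw [mul_assoc, ← hρ, inv_mul_cancel₀ hρ0.ne']
    have h2 : ρ⁻¹ * s ≤ 1 + 8 / 7 * δ := by
      have h3 : 0 < 1 - δ := by linarith
      have h4 : ρ⁻¹ * s = 1 / (1 - δ) := by
        rw [eq_div_iff h3.ne']
        exact h1
      rw [h4, div_le_iff₀ h3]
      nlinarith
    have h5 : (ρ + ρ⁻¹) * (2 * s + η) = 2 * s ^ 2 * (1 - δ) + 2 * (ρ⁻¹ * s) +
        η * (ρ + ρ⁻¹) := by
      rw [hρ]
      ring
    rw [h5]
    have h6 : η * (ρ + ρ⁻¹) ≤ δ / 2 * (s + 1) := by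
      apply mul_le_mul (by linarith) (by linarith) (by positivity) (by positivity)
    have h7 : 0 ≤ δ * (2 * s ^ 2 - 16 / 7 - (s + 1) / 2) := by
      apply mul_nonneg hδ0.le
      nlinarith
    nlinarith
  have hx0 : 1 ≤ (ρ + ρ⁻¹) / 2 := by
    have h1 : ρ * ρ⁻¹ = 1 := mul_inv_cancel₀ hρ0.ne'
    have h2 : 0 < ρ⁻¹ := inv_pos.2 hρ0
    nlinarith [sq_nonneg (ρ - ρ⁻¹), sq_nonneg (ρ + ρ⁻¹ - 2)]
  constructor
  · refine le_trans ?_ (T_mono hx0 hx1 k)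
    rw [T_rho hρ0, hρ, mul_pow]
    have h1 : (1 : ℝ) / 2 ≤ (1 - δ) ^ k := by
      have h2 := one_add_mul_le_pow (a := -δ) (by linarith) k
      have h3 : (k : ℝ) * δ ≤ 1 / 2 := by
        have h4 : (k : ℝ) ≤ M := by exact_mod_cast hk
        have h5 : (k : ℝ) * δ ≤ M * δ := mul_le_mul_of_nonneg_right h4 hδ0.le
        have h6 : M * δ * 4 ≤ M * δ * M := mul_le_mul_of_nonneg_left hM4 (by positivity)
        nlinarith
      have e : (1 : ℝ) + -δ = 1 - δ := by ring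
      rw [e] at h2
      linarith
    have h7 : 0 < s ^ k := pow_pos hs0' k
    have h8 : 0 < (s ^ k * (1 - δ) ^ k)⁻¹ := inv_pos.2 (by positivity)
    nlinarith
  · refine (T_mono (hx0.trans hx1) hx2 k).trans ?_
    rw [T_rho hs0']
    have h1 : 1 ≤ s ^ k := one_le_pow₀ (by linarith)
    have h2 : (s ^ k)⁻¹ ≤ 1 := inv_le_one_of_one_le₀ h1
    linarith

end Pool.Agent.helper5.RG
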