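import Mathlib
import Pool.Agent.helper5.RG.Bas

set_option autoImplicit false

/-!
# RG-3 (Vol): the volume of balls

PROOF of `card_bal_ge`. Let `f 0 = δ_v`, `f 1 = L⁻¹ A f 0`, `f (k + 2) = 2 L⁻¹ A f (k + 1) - f k`, so
`f k = T_k (A / L) δ_v`. (1) `f k` vanishes outside the ball of radius `k` (induction). (2)
`∑ x, f k x = T_k (d / L)` (induction, `∑ x, (A h) x = d ∑ x, h x`). (3)
`u i ⬝ᵥ f k = T_k (l i / L) * u i v` (induction), so by Parseval `f k ⬝ᵥ f k = ∑ T_k (l i / L) ^ 2 (u i v) ^ 2`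
`≤ 1 + 2 T_k (d / L) ^ 2 / N` (`|T_k| ≤ 1` on `[-1, 1]`, `T_k (-x) ^ 2 = T_k x ^ 2`). (4) Cauchy-Schwarz:
`(∑ f k) ^ 2 ≤ card (ball) * (f k ⬝ᵥ f k)`.
-/

namespace Pool.Agent.helper5.RG

open Finset Matrix Polynomial

variable {V : Type*} [Fintype V] [DecidableEq V] (G : SimpleGraph V) [DecidableRel G.Adj]

/-- `T_k (A / L)` applied to the delta function at `v` -/
private noncomputable def chf (L : ℝ) (v : V) : ℕ → V → ℝ
  | 0 => Pi.single v 1
  | 1 => L⁻¹ • (G.adjMatrix ℝ).mulVec (Pi.single v 1)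
  | (k + 2) => (2 * L⁻¹) • (G.adjMatrix ℝ).mulVec (chf L v (k + 1)) - chf L v k

private lemma mulVec_zero_of {h : V → ℝ} {x : V} (hh : ∀ y, G.Adj x y → h y = 0) :
    (G.adjMatrix ℝ).mulVec h x = 0 := by
  rw [SimpleGraph.adjMatrix_mulVec_apply]
  exact Finset.sum_eq_zero fun y hy => hh y (by simpa using hy)

private lemma dist_adj (hc : G.Connected) (v : V) {x y : V} (h : G.Adj x y) :
    G.dist v x ≤ G.dist v y + 1 := by
  have h1 := hc.dist_triangle (u := v) (v := y) (w := x)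
  have h2 : G.dist y x = 1 := SimpleGraph.dist_eq_one_iff_adj.2 h.symm
  omega

private lemma chf_support (hc : G.Connected) (L : ℝ) (v : V) :
    ∀ k : ℕ, (∀ x, k < G.dist v x → chf G L v k x = 0) ∧
      (∀ x, k + 1 < G.dist v x → chf G L v (k + 1) x = 0) := by
  intro k
  induction k with
  | zero =>
    have h0 : ∀ x, 0 < G.dist v x → chf G L v 0 x = 0 := by
      intro x hx
      have hne : x ≠ v := by
        rintro rfl
        simp at hx
      simp [chf, hne]
    refine ⟨h0, ?_⟩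
    intro x hx
    show (L⁻¹ • (G.adjMatrix ℝ).mulVec (Pi.single v 1)) x = 0
    rw [Pi.smul_apply, mulVec_zero_of, smul_zero]
    intro y hy
    have := dist_adj G hc v hy
    exact h0 y (by omega)
  | succ k ih =>
    refine ⟨ih.2, ?_⟩
    intro x hx
    show ((2 * L⁻¹) • (G.adjMatrix ℝ).mulVec (chf G L v (k + 1)) - chf G L v k) x = 0
    rw [Pi.sub_apply, Pi.smul_apply, mulVec_zero_of, smul_zero, ih.1 x (by omega), sub_zero]
    intro y hy
    have := dist_adj G hc v hy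
    exact ih.2 y (by omega)

private lemma sum_mulVec {d : ℕ} (hr : G.IsRegularOfDegree d) (h : V → ℝ) :
    ∑ x, (G.adjMatrix ℝ).mulVec h x = (d : ℝ) * ∑ x, h x := by
  have e1 : ∀ x, (G.adjMatrix ℝ).mulVec h x = ∑ y, if G.Adj x y then h y else 0 := by
    intro x
    rw [SimpleGraph.adjMatrix_mulVec_apply, ← Finset.sum_filter]
    apply Finset.sum_congr
    · ext y
      simp
    · intros; rfl
  simp only [e1]
  rw [Finset.sum_comm, Finset.mul_sum]
  apply Finset.sum_congr rfl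
  intro y _
  rw [← Finset.sum_filter, Finset.sum_const, nsmul_eq_mul]
  congr 2
  rw [← hr.degree_eq y, ← SimpleGraph.card_neighborFinset_eq_degree]
  congr 1
  ext x
  simp [SimpleGraph.adj_comm]

/-- a linear functional which is an eigenvector of the transpose of `A` -/
private lemma chf_functional (L : ℝ) (v : V) (u : V → ℝ) (l : ℝ)
    (hu : ∀ h : V → ℝ, u ⬝ᵥ (G.adjMatrix ℝ).mulVec h = l * (u ⬝ᵥ h)) :
    ∀ k : ℕ, u ⬝ᵥ chf G L v k = (Chebyshev.T ℝ k).eval (l / L) * u v ∧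
      u ⬝ᵥ chf G L v (k + 1) = (Chebyshev.T ℝ ((k + 1 : ℕ) : ℤ)).eval (l / L) * u v := by
  intro k
  induction k with
  | zero =>
    constructor
    · simp [chf]
    · show u ⬝ᵥ (L⁻¹ • (G.adjMatrix ℝ).mulVec (Pi.single v 1)) = _
      rw [dotProduct_smul, hu]
      simp
      ring
  | succ k ih =>
    refine ⟨ih.2, ?_⟩
    show u ⬝ᵥ ((2 * L⁻¹) • (G.adjMatrix ℝ).mulVec (chf G L v (k + 1)) - chf G L v k) = _
    rw [dotProduct_sub, dotProduct_smul, hu, ih.1, ih.2]
    have hT : Chebyshev.T ℝ ((k + 1 + 1 : ℕ) : ℤ)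
        = 2 * X * Chebyshev.T ℝ ((k + 1 : ℕ) : ℤ) - Chebyshev.T ℝ (k : ℤ) := by
      have := Chebyshev.T_add_two ℝ (k : ℤ)
      push_cast
      rw [show ((k : ℤ) + 1 + 1) = (k : ℤ) + 2 by ring]
      exact this
    rw [hT]
    simp only [eval_sub, eval_mul, eval_X, eval_ofNat, smul_eq_mul]
    ring

theorem card_bal_ge {d : ℕ} {L : ℝ} (hL : 0 < L) (hc : G.Connected) (hr : G.IsRegularOfDegree d)
    (hs : Spec G d L) (k : ℕ) (v : V) :
    (Polynomial.Chebyshev.T ℝ k).eval ((d : ℝ) / L) ^ 2 ≤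
      ((bal G v k).card : ℝ) *
        (1 + 2 * (Polynomial.Chebyshev.T ℝ k).eval ((d : ℝ) / L) ^ 2 / (Fintype.card V : ℝ)) := by
  classical
  obtain ⟨u, l, hev, hpar, -, hl, hd, hnd, -⟩ := exists_basis G hc hr hs
  set t : ℝ := (Chebyshev.T ℝ k).eval ((d : ℝ) / L) with ht
  set F : V → ℝ := chf G L v k with hF
  have hd0 : (0 : ℝ) ≤ (d : ℝ) := Nat.cast_nonneg d
  -- the sum of `F`
  have hsum : ∑ x, F x = t := by
    have h1 := (chf_functional G L v (fun _ => (1 : ℝ)) d (fun h => by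
      simp only [dotProduct, one_mul]
      exact sum_mulVec G hr h) k).1
    simpa [dotProduct] using h1
  -- the coefficients of `F`
  have hcoef : ∀ i, u i ⬝ᵥ F = (Chebyshev.T ℝ k).eval (l i / L) * u i v := by
    intro i
    refine (chf_functional G L v (u i) (l i) (fun h => ?_) k).1
    rw [Matrix.dotProduct_mulVec, ← Matrix.mulVec_transpose, SimpleGraph.transpose_adjMatrix, hev,
      smul_dotProduct, smul_eq_mul]
  have hone : ∑ i, u i v ^ 2 = 1 := by
    have h1 := hpar (Pi.single v 1)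
    simpa using h1
  have hTneg : (Chebyshev.T ℝ k).eval (-((d : ℝ) / L)) ^ 2 = t ^ 2 := by
    rw [Chebyshev.T_eval_neg, mul_pow, ← ht]
    rcases Int.even_or_odd (k : ℤ) with h | h
    · rw [Int.negOnePow_even _ h]
      simp
    · rw [Int.negOnePow_odd _ h]
      simp
  have hterm : ∀ i, (u i ⬝ᵥ F) ^ 2 ≤ u i v ^ 2 + ((if l i = (d : ℝ) then t ^ 2 * u i v ^ 2 else 0)
      + (if l i = -(d : ℝ) then t ^ 2 * u i v ^ 2 else 0)) := by
    intro i
    rw [hcoef, mul_pow]
    have h0 : 0 ≤ u i v ^ 2 := sq_nonneg _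
    have h1 : 0 ≤ t ^ 2 * u i v ^ 2 := by positivity
    rcases hl i with h | h
    · rcases (abs_eq hd0).1 h with h2 | h2
      · rw [h2, if_pos rfl, ← ht]
        split_ifs <;> linarith
      · have h3 : l i / L = -((d : ℝ) / L) := by rw [h2]; ring
        rw [h3, hTneg, if_pos h2]
        split_ifs <;> linarith
    · have h3 : |l i / L| ≤ 1 := by
        rw [abs_div, abs_of_pos hL]
        exact (div_le_one hL).2 h
      have h4 := Chebyshev.abs_eval_T_real_le_one (k : ℤ) h3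
      have h5 : (Chebyshev.T ℝ k).eval (l i / L) ^ 2 ≤ 1 := by
        rw [← sq_abs]
        exact pow_le_one₀ (abs_nonneg _) h4
      have h6 : (Chebyshev.T ℝ k).eval (l i / L) ^ 2 * u i v ^ 2 ≤ 1 * u i v ^ 2 :=
        mul_le_mul_of_nonneg_right h5 h0
      split_ifs <;> linarith
  have hnorm : F ⬝ᵥ F ≤ 1 + 2 * t ^ 2 / (Fintype.card V : ℝ) := by
    rw [← hpar F]
    calc ∑ i, (u i ⬝ᵥ F) ^ 2
        ≤ ∑ i, (u i v ^ 2 + ((if l i = (d : ℝ) then t ^ 2 * u i v ^ 2 else 0)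
          + (if l i = -(d : ℝ) then t ^ 2 * u i v ^ 2 else 0))) :=
          Finset.sum_le_sum fun i _ => hterm i
      _ = 1 + (t ^ 2 * (∑ i with l i = (d : ℝ), u i v ^ 2)
          + t ^ 2 * (∑ i with l i = -(d : ℝ), u i v ^ 2)) := by
          rw [Finset.sum_add_distrib, Finset.sum_add_distrib, hone, ← Finset.sum_filter,
            ← Finset.sum_filter, Finset.mul_sum, Finset.mul_sum]
      _ ≤ 1 + (t ^ 2 * (1 / (Fintype.card V : ℝ)) + t ^ 2 * (1 / (Fintype.card V : ℝ))) := by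
          have h1 := mul_le_mul_of_nonneg_left (hd v) (sq_nonneg t)
          have h2 := mul_le_mul_of_nonneg_left (hnd v) (sq_nonneg t)
          linarith
      _ = 1 + 2 * t ^ 2 / (Fintype.card V : ℝ) := by ring
  have hball : ∑ x, F x = ∑ x ∈ bal G v k, F x := by
    rw [bal]
    symm
    apply Finset.sum_subset (Finset.subset_univ _)
    intro x _ hx
    rw [Finset.mem_filter, not_and] at hx
    exact (chf_support G hc L v k).1 x (not_le.1 (hx (Finset.mem_univ _)))
  calc t ^ 2 = (∑ x ∈ bal G v k, F x) ^ 2 := by rw [← hball, hsum]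
    _ ≤ ((bal G v k).card : ℝ) * ∑ x ∈ bal G v k, F x ^ 2 := sq_sum_le_card_mul_sum_sq
    _ ≤ ((bal G v k).card : ℝ) * (F ⬝ᵥ F) := by
        refine mul_le_mul_of_nonneg_left ?_ (Nat.cast_nonneg _)
        have h1 : F ⬝ᵥ F = ∑ x, F x ^ 2 := by
          simp only [dotProduct]
          exact Finset.sum_congr rfl fun x _ => by ring
        rw [h1]
        exact Finset.sum_le_sum_of_subset_of_nonneg (Finset.subset_univ _)
          fun x _ _ => sq_nonneg _
    _ ≤ ((bal G v k).card : ℝ) * (1 + 2 * t ^ 2 / (Fintype.card V : ℝ)) :=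
        mul_le_mul_of_nonneg_left hnorm (Nat.cast_nonneg _)

end Pool.Agent.helper5.RG
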