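import Mathlib
import Pool.Agent.helper5.RG.Vol
import Pool.Agent.helper5.RG.Che
import Pool.Agent.helper5.RG.Sph

set_option autoImplicit false

/-!
# RG-11 (Win): every vertex has full growth

PROOF of `card_bal_ge_pow`: `card_bal_ge` with `L = 2 √q + η` and `cheb_bounds`: with `τ = T_k (...)`,
`q ^ k / 16 ≤ τ ^ 2 ≤ q ^ k ≤ N`, so `1 + 2 τ ^ 2 / N ≤ 3` and `card ≥ τ ^ 2 / 3 ≥ q ^ k / 48`.

PROOF of `window_ge`: `∑ over t in [T, T + 9) of |sph y t| = |bal y (T + 8)| - |bal y (T - 1)|`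
`≥ q ^ (T + 8) / 48 - 3 q ^ (T - 1)`, and `3 q ^ (T - 1) ≤ q ^ (T + 8) / 96` since `q ^ 9 ≥ 512 ≥ 288`; each term
`q⁻¹ ^ t |sph y t|` is at least `q⁻¹ ^ (T + 8) |sph y t|`.
-/

namespace Pool.Agent.helper5.RG

open Finset

variable {V : Type*} [Fintype V] [DecidableEq V] (G : SimpleGraph V) [DecidableRel G.Adj]

theorem card_bal_ge_pow {q : ℕ} (hq : 2 ≤ q) (hc : G.Connected)
    (hr : G.IsRegularOfDegree (q + 1)) {η : ℝ} (hη : 0 ≤ η)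
    (hs : Spec G (q + 1) (2 * Real.sqrt q + η)) {M : ℕ} (hM : 4 ≤ M)
    (hηM : η * (M : ℝ) ^ 2 ≤ 1) (hN : (q : ℝ) ^ M ≤ (Fintype.card V : ℝ)) {k : ℕ} (hk : k ≤ M)
    (v : V) : (q : ℝ) ^ k / 48 ≤ ((bal G v k).card : ℝ) := by
  have hq' : (2 : ℝ) ≤ (q : ℝ) := by exact_mod_cast hq
  have hsq : 0 < Real.sqrt q := Real.sqrt_pos.mpr (by linarith)
  have hL : 0 < 2 * Real.sqrt q + η := by positivity
  have h1 := card_bal_ge G hL hc hr hs k v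
  obtain ⟨hlo, hhi⟩ := cheb_bounds hq' hη hM hηM hk
  rw [Nat.cast_add, Nat.cast_one] at h1
  set τ := (Polynomial.Chebyshev.T ℝ k).eval (((q : ℝ) + 1) / (2 * Real.sqrt q + η)) with hτ
  have hτ0 : 0 ≤ τ := le_trans (by positivity) hlo
  have hsqk : (Real.sqrt q ^ k) ^ 2 = (q : ℝ) ^ k := by
    rw [← pow_mul, mul_comm, pow_mul, Real.sq_sqrt (by linarith)]
  have h2 : (q : ℝ) ^ k / 16 ≤ τ ^ 2 := by
    have h : (Real.sqrt q ^ k / 4) ^ 2 ≤ τ ^ 2 := pow_le_pow_left₀ (by positivity) hlo 2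
    rw [div_pow, hsqk] at h
    linarith
  have h3 : τ ^ 2 ≤ (q : ℝ) ^ k := by
    have h := pow_le_pow_left₀ hτ0 hhi 2
    rwa [hsqk] at h
  have h4 : (q : ℝ) ^ k ≤ (Fintype.card V : ℝ) :=
    le_trans (pow_le_pow_right₀ (by linarith) hk) hN
  have hN0 : 0 < (Fintype.card V : ℝ) := lt_of_lt_of_le (by positivity) h4
  have h5 : 1 + 2 * τ ^ 2 / (Fintype.card V : ℝ) ≤ 3 := by
    have h : 2 * τ ^ 2 / (Fintype.card V : ℝ) ≤ 2 := by
      rw [div_le_iff₀ hN0]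
      linarith
    linarith
  have h6 : τ ^ 2 ≤ ((bal G v k).card : ℝ) * 3 :=
    le_trans h1 (mul_le_mul_of_nonneg_left h5 (by positivity))
  linarith

theorem window_ge {q : ℕ} (hq : 2 ≤ q) (hc : G.Connected)
    (hr : G.IsRegularOfDegree (q + 1)) {η : ℝ} (hη : 0 ≤ η)
    (hs : Spec G (q + 1) (2 * Real.sqrt q + η)) {M : ℕ} (hM : 4 ≤ M)
    (hηM : η * (M : ℝ) ^ 2 ≤ 1) (hN : (q : ℝ) ^ M ≤ (Fintype.card V : ℝ)) {T : ℕ} (hT : 1 ≤ T)
    (hTM : T + 8 ≤ M) (y : V) :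
    (1 : ℝ) / 96 ≤ ∑ t ∈ Ico T (T + 9), ((q : ℝ)⁻¹) ^ t * ((sph G y t).card : ℝ) := by
  have hq' : (2 : ℝ) ≤ (q : ℝ) := by exact_mod_cast hq
  have hcov : bal G y (T + 8) ⊆
      bal G y (T - 1) ∪ (Ico T (T + 9)).biUnion (fun t => sph G y t) := by
    intro x hx
    simp only [bal, sph, mem_union, mem_filter, mem_univ, true_and, mem_biUnion, mem_Ico] at hx ⊢
    by_cases h : G.dist y x ≤ T - 1
    · exact Or.inl h
    · exact Or.inr ⟨G.dist y x, by omega, rfl⟩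
  have hcard : (bal G y (T + 8)).card ≤
      (bal G y (T - 1)).card + ∑ t ∈ Ico T (T + 9), (sph G y t).card :=
    (card_le_card hcov).trans ((card_union_le _ _).trans (Nat.add_le_add_left card_biUnion_le _))
  have hcard' : ((bal G y (T + 8)).card : ℝ) ≤
      ((bal G y (T - 1)).card : ℝ) + ∑ t ∈ Ico T (T + 9), ((sph G y t).card : ℝ) := by
    exact_mod_cast hcard
  have h1 := card_bal_ge_pow G hq hc hr hη hs hM hηM hN hTM y
  have h2 := card_bal_le G hq hc hr y (T - 1)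
  have h3 : ((q : ℝ)⁻¹) ^ (T + 8) * ∑ t ∈ Ico T (T + 9), ((sph G y t).card : ℝ) ≤
      ∑ t ∈ Ico T (T + 9), ((q : ℝ)⁻¹) ^ t * ((sph G y t).card : ℝ) := by
    rw [mul_sum]
    refine sum_le_sum fun t ht => mul_le_mul_of_nonneg_right ?_ (by positivity)
    have ht' := mem_Ico.mp ht
    exact pow_le_pow_of_le_one (by positivity) (inv_le_one_of_one_le₀ (by linarith)) (by omega)
  have h9 : (288 : ℝ) ≤ (q : ℝ) ^ 9 := by
    have h : (2 : ℝ) ^ 9 ≤ (q : ℝ) ^ 9 := pow_le_pow_left₀ (by norm_num) hq' 9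
    norm_num at h
    linarith
  have h4 : (q : ℝ) ^ (T + 8) = (q : ℝ) ^ (T - 1) * (q : ℝ) ^ 9 := by
    rw [← pow_add]
    congr 1
    omega
  have h5 : 3 * (q : ℝ) ^ (T - 1) ≤ (q : ℝ) ^ (T + 8) / 96 := by
    rw [h4]
    have h : (0 : ℝ) < (q : ℝ) ^ (T - 1) := by positivity
    nlinarith
  have h6 : (q : ℝ) ^ (T + 8) / 96 ≤ ∑ t ∈ Ico T (T + 9), ((sph G y t).card : ℝ) := by
    linarith
  have h7 : ((q : ℝ)⁻¹) ^ (T + 8) * ((q : ℝ) ^ (T + 8) / 96) = 1 / 96 := by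
    have h : (q : ℝ) ^ (T + 8) ≠ 0 := by positivity
    rw [inv_pow]
    field_simp
  calc (1 : ℝ) / 96 = ((q : ℝ)⁻¹) ^ (T + 8) * ((q : ℝ) ^ (T + 8) / 96) := h7.symm
    _ ≤ ((q : ℝ)⁻¹) ^ (T + 8) * ∑ t ∈ Ico T (T + 9), ((sph G y t).card : ℝ) :=
        mul_le_mul_of_nonneg_left h6 (by positivity)
    _ ≤ _ := h3

end Pool.Agent.helper5.RG
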