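import Mathlib
import Pool.Agent.helper5.RG.Win
import Pool.Agent.helper5.RG.Cha
import Pool.Agent.helper5.RG.Chb
import Pool.Agent.helper5.RG.Qua
import Pool.Agent.helper5.RG.Ide

set_option autoImplicit false

/-!
# RG-12 (Mai): the bound with a parameter `K`
-/

namespace Pool.Agent.helper5.RG

open Finset Matrix

/-- the trapezoid -/
noncomputable def trap (K : ℕ) (j : ℕ) : ℝ :=
  max 0 (min 1 (min ((j : ℝ) / K) ((3 * K + 1 - j : ℝ) / K)))

lemma trap_zero (K : ℕ) : trap K 0 = 0 := by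
  rw [trap]
  refine max_eq_left ?_
  refine (min_le_right _ _).trans ((min_le_left _ _).trans ?_)
  simp

lemma trap_far {K j : ℕ} (h : 3 * K + 1 ≤ j) : trap K j = 0 := by
  rw [trap]
  refine max_eq_left ?_
  refine (min_le_right _ _).trans ((min_le_right _ _).trans ?_)
  refine div_nonpos_of_nonpos_of_nonneg ?_ (Nat.cast_nonneg _)
  have : ((3 * K + 1 : ℕ) : ℝ) ≤ (j : ℝ) := by exact_mod_cast h
  push_cast at this
  linarith

lemma trap_one {K j : ℕ} (hK : 0 < K) (h1 : K ≤ j) (h2 : j ≤ 2 * K + 1) : trap K j = 1 := by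
  have hK' : (0 : ℝ) < K := by exact_mod_cast hK
  have h1' : (K : ℝ) ≤ j := by exact_mod_cast h1
  have h2' : (j : ℝ) ≤ 2 * K + 1 := by exact_mod_cast h2
  rw [trap]
  have e : min 1 (min ((j : ℝ) / K) ((3 * K + 1 - j : ℝ) / K)) = 1 := by
    refine min_eq_left (le_min ?_ ?_)
    · rw [le_div_iff₀ hK', one_mul]; exact h1'
    · rw [le_div_iff₀ hK', one_mul]; linarith
  rw [e]
  exact max_eq_right zero_le_one

lemma trap_nonneg (K j : ℕ) : 0 ≤ trap K j := le_max_left _ _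

lemma trap_le_one (K j : ℕ) : trap K j ≤ 1 := max_le zero_le_one (min_le_left _ _)

lemma trap_lip {K : ℕ} (hK : 0 < K) (j : ℕ) :
    (trap K (j + 1) - trap K j) ^ 2 ≤ 1 / (K : ℝ) ^ 2 := by
  have hK' : (0 : ℝ) < K := by exact_mod_cast hK
  have hpos : (0 : ℝ) ≤ 1 / K := by positivity
  have key : |trap K (j + 1) - trap K j| ≤ 1 / K := by
    rw [trap, trap]
    refine (abs_max_sub_max_le_max _ _ _ _).trans (max_le (by simp) ?_)
    refine (abs_min_sub_min_le_max _ _ _ _).trans (max_le (by simp) ?_)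
    refine (abs_min_sub_min_le_max _ _ _ _).trans (max_le ?_ ?_)
    · have : ((j + 1 : ℕ) : ℝ) / K - (j : ℝ) / K = 1 / K := by push_cast; ring
      rw [this, abs_of_nonneg hpos]
    · have : (3 * (K : ℝ) + 1 - ((j + 1 : ℕ) : ℝ)) / K - (3 * K + 1 - j) / K = -(1 / K) := by
        push_cast; ring
      rw [this, abs_neg, abs_of_nonneg hpos]
  calc (trap K (j + 1) - trap K j) ^ 2 = |trap K (j + 1) - trap K j| ^ 2 := (sq_abs _).symm
    _ ≤ (1 / K) ^ 2 := by gcongr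
    _ = 1 / (K : ℝ) ^ 2 := by rw [div_pow, one_pow]

lemma sq_le_two_pow {K : ℕ} (h : 4 ≤ K) : K ^ 2 ≤ 2 ^ K := by
  induction K, h using Nat.le_induction with
  | base => norm_num
  | succ n hn ih =>
    rw [pow_succ 2 n]
    nlinarith

/-- `36 K ^ 3 ≤ q ^ (3 K)` -/
lemma aux_pow {q K : ℕ} (hq : 2 ≤ q) (hK : 36 ≤ K) : 36 * K ^ 3 ≤ q ^ (3 * K) := by
  have h1 := sq_le_two_pow (show 4 ≤ K by omega)
  have h2 : (2 : ℕ) ^ K ≤ q ^ K := Nat.pow_le_pow_left hq K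
  have h3 : K ^ 2 ≤ q ^ K := h1.trans h2
  have h4 : 1 ≤ q ^ K := Nat.one_le_pow _ _ (by omega)
  calc 36 * K ^ 3 ≤ K * K ^ 3 := Nat.mul_le_mul_right _ hK
    _ = (K ^ 2) * (K ^ 2) * 1 := by ring
    _ ≤ q ^ K * q ^ K * q ^ K := Nat.mul_le_mul (Nat.mul_le_mul h3 h3) h4
    _ = q ^ (3 * K) := by rw [← pow_add, ← pow_add]; congr 1; ring

/-- a sum over consecutive windows -/
lemma sum_windows (F : ℕ → ℝ) (c : ℝ) (a m : ℕ)
    (h : ∀ i, i < m → c ≤ ∑ t ∈ Ico (a + 9 * i) (a + 9 * i + 9), F t) :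
    (m : ℝ) * c ≤ ∑ t ∈ Ico a (a + 9 * m), F t := by
  induction m with
  | zero => simp
  | succ m ih =>
    have h1 := ih fun i hi => h i (by omega)
    have h2 := h m (by omega)
    have h3 : a + 9 * (m + 1) = a + 9 * m + 9 := by ring
    rw [h3, ← sum_Ico_consecutive F (show a ≤ a + 9 * m by omega)
      (show a + 9 * m ≤ a + 9 * m + 9 by omega)]
    push_cast
    linarith

variable {V : Type*} [Fintype V] [DecidableEq V] (G : SimpleGraph V) [DecidableRel G.Adj]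

section

variable {q : ℕ} (hq : 2 ≤ q) (hc : G.Connected) (hr : G.IsRegularOfDegree (q + 1)) {η : ℝ}
  (hη : 0 ≤ η) (hs : Spec G (q + 1) (2 * Real.sqrt q + η)) {K : ℕ} (hK : 36 ≤ K)
  (hηK : η * (4 * (K : ℝ)) ^ 2 ≤ 1) (hN : (q : ℝ) ^ (6 * K) ≤ (Fintype.card V : ℝ))

include hq in
lemma sqrt_facts : (0 : ℝ) < Real.sqrt q ∧ Real.sqrt q * Real.sqrt q = q ∧
    (Real.sqrt q)⁻¹ ≤ 3 / 4 ∧ ((Real.sqrt q)⁻¹) ^ 2 = (q : ℝ)⁻¹ := by
  have hq' : (2 : ℝ) ≤ q := by exact_mod_cast hq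
  have h1 : (0 : ℝ) < Real.sqrt q := Real.sqrt_pos.2 (by linarith)
  have h2 : Real.sqrt q * Real.sqrt q = q := Real.mul_self_sqrt (by linarith)
  refine ⟨h1, h2, ?_, ?_⟩
  · have h3 : (4 : ℝ) / 3 ≤ Real.sqrt q := by
      refine Real.le_sqrt_of_sq_le ?_
      norm_num
      linarith
    rw [inv_le_comm₀ h1 (by norm_num)]
    norm_num
    linarith
  · rw [inv_pow, sq, h2]

include hq hc hr in
/-- the square of the norm of the test function -/
lemma norm_tf_le (hK : 36 ≤ K) (v : V) :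
    tf G q (trap K) v ⬝ᵥ tf G q (trap K) v ≤ 6 * (K : ℝ) := by
  obtain ⟨s0, s1, s2, s3⟩ := sqrt_facts hq
  have e : tf G q (trap K) v ⬝ᵥ tf G q (trap K) v =
      ∑ x, (fun j => trap K j ^ 2 * ((q : ℝ)⁻¹) ^ j) (G.dist v x) := by
    rw [dotProduct]
    refine sum_congr rfl fun x _ => ?_
    simp only [tf]
    rw [← s3, ← pow_mul]
    ring
  rw [e, sum_radial G v (fun j => trap K j ^ 2 * ((q : ℝ)⁻¹) ^ j) (3 * K + 1)]
  · calc ∑ j ∈ range (3 * K + 1), trap K j ^ 2 * ((q : ℝ)⁻¹) ^ j * ((sph G v j).card : ℝ)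
        ≤ ∑ j ∈ range (3 * K + 1), (3 / 2 : ℝ) := by
          refine sum_le_sum fun j _ => ?_
          have h1 := card_sph_le G hq hc hr v j
          have h2 : trap K j ^ 2 ≤ 1 := by
            have := trap_nonneg K j
            have := trap_le_one K j
            nlinarith
          have hq0 : (0 : ℝ) < q := by exact_mod_cast (by omega : 0 < q)
          have h3 : ((q : ℝ)⁻¹) ^ j * (q : ℝ) ^ j = 1 := by
            rw [← mul_pow, inv_mul_cancel₀ hq0.ne', one_pow]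
          calc trap K j ^ 2 * ((q : ℝ)⁻¹) ^ j * ((sph G v j).card : ℝ)
              ≤ 1 * ((q : ℝ)⁻¹) ^ j * (3 / 2 * (q : ℝ) ^ j) := by gcongr
            _ = 3 / 2 * (((q : ℝ)⁻¹) ^ j * (q : ℝ) ^ j) := by ring
            _ = 3 / 2 := by rw [h3, mul_one]
      _ = (3 * (K : ℝ) + 1) * (3 / 2) := by
          rw [sum_const, card_range, nsmul_eq_mul]; push_cast; ring
      _ ≤ 6 * (K : ℝ) := by
          have : (36 : ℝ) ≤ K := by exact_mod_cast hK
          linarith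
  · intro j hj
    simp only [trap_far hj]
    ring

include hq hc hr in
/-- the sum of the test function -/
lemma sum_tf_le (hK : 36 ≤ K) (v : V) :
    (∑ x, tf G q (trap K) v x) ^ 2 ≤ 36 * (K : ℝ) ^ 2 * (q : ℝ) ^ (3 * K) := by
  obtain ⟨s0, s1, s2, s3⟩ := sqrt_facts hq
  have hq0 : (0 : ℝ) < q := by exact_mod_cast (by omega : 0 < q)
  have hs1 : (1 : ℝ) ≤ Real.sqrt q := by
    rw [Real.one_le_sqrt]
    exact_mod_cast (by omega : 1 ≤ q)
  have e : ∑ x, tf G q (trap K) v x =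
      ∑ x, (fun j => trap K j * ((Real.sqrt q)⁻¹) ^ j) (G.dist v x) := by
    refine sum_congr rfl fun x _ => ?_
    simp only [tf]
  have h0 : 0 ≤ ∑ x, tf G q (trap K) v x := by
    refine sum_nonneg fun x _ => ?_
    rw [tf]
    have := trap_nonneg K (G.dist v x)
    positivity
  have h1 : ∑ x, tf G q (trap K) v x ≤ 6 * (K : ℝ) * (Real.sqrt q) ^ (3 * K) := by
    rw [e, sum_radial G v (fun j => trap K j * ((Real.sqrt q)⁻¹) ^ j) (3 * K + 1)]
    · calc ∑ j ∈ range (3 * K + 1), trap K j * ((Real.sqrt q)⁻¹) ^ j * ((sph G v j).card : ℝ)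
          ≤ ∑ j ∈ range (3 * K + 1), (3 / 2 * (Real.sqrt q) ^ (3 * K) : ℝ) := by
            refine sum_le_sum fun j hj => ?_
            have h1 := card_sph_le G hq hc hr v j
            have h2 := trap_nonneg K j
            have h2' := trap_le_one K j
            have h3 : ((Real.sqrt q)⁻¹) ^ j * (q : ℝ) ^ j = Real.sqrt q ^ j := by
              rw [← mul_pow]
              congr 1
              rw [inv_mul_eq_div, div_eq_iff s0.ne', s1]
            have h4 : Real.sqrt q ^ j ≤ Real.sqrt q ^ (3 * K) :=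
              pow_le_pow_right₀ hs1 (by have := mem_range.1 hj; omega)
            calc trap K j * ((Real.sqrt q)⁻¹) ^ j * ((sph G v j).card : ℝ)
                ≤ 1 * ((Real.sqrt q)⁻¹) ^ j * (3 / 2 * (q : ℝ) ^ j) := by gcongr
              _ = 3 / 2 * (((Real.sqrt q)⁻¹) ^ j * (q : ℝ) ^ j) := by ring
              _ ≤ 3 / 2 * Real.sqrt q ^ (3 * K) := by rw [h3]; gcongr
        _ = (3 * (K : ℝ) + 1) * (3 / 2) * Real.sqrt q ^ (3 * K) := by
            rw [sum_const, card_range, nsmul_eq_mul]; push_cast; ring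
        _ ≤ 6 * (K : ℝ) * Real.sqrt q ^ (3 * K) := by
            have : (36 : ℝ) ≤ K := by exact_mod_cast hK
            refine mul_le_mul_of_nonneg_right ?_ (by positivity)
            linarith
    · intro j hj
      simp only [trap_far hj]
      ring
  calc (∑ x, tf G q (trap K) v x) ^ 2 ≤ (6 * (K : ℝ) * (Real.sqrt q) ^ (3 * K)) ^ 2 := by gcongr
    _ = 36 * (K : ℝ) ^ 2 * (Real.sqrt q * Real.sqrt q) ^ (3 * K) := by ring
    _ = 36 * (K : ℝ) ^ 2 * (q : ℝ) ^ (3 * K) := by rw [s1]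

include hq hc hr hη hs hK hηK hN in
open Classical in
/-- the weight of the defects on the levels `K, ..., 2 K + 1` -/
theorem defect_weight_le (v : V) :
    ∑ x ∈ univ.filter (fun x => K ≤ G.dist v x ∧ G.dist v x ≤ 2 * K + 1),
      (W G v x : ℝ) * ((q : ℝ)⁻¹) ^ (G.dist v x) ≤ 24 * ((q : ℝ) + 1) / K := by
  obtain ⟨s0, s1, s2, s3⟩ := sqrt_facts hq
  have hK0 : 0 < K := by omega
  have hK' : (36 : ℝ) ≤ K := by exact_mod_cast hK
  have hKpos : (0 : ℝ) < K := by linarith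
  have hq' : (2 : ℝ) ≤ q := by exact_mod_cast hq
  have hN0 : (0 : ℝ) < Fintype.card V := lt_of_lt_of_le (by positivity) hN
  set s : ℝ := (Real.sqrt q)⁻¹ with hsdef
  have hspos : 0 < s := inv_pos.2 s0
  set P : ℝ := ∑ x ∈ univ.filter (fun x => K ≤ G.dist v x ∧ G.dist v x ≤ 2 * K + 1),
      (W G v x : ℝ) * ((q : ℝ)⁻¹) ^ (G.dist v x) with hP
  have hP0 : 0 ≤ P := sum_nonneg fun x _ => by positivity
  -- lower bound for the gain
  have hg : P ≤ ∑ x, (W G v x : ℝ) * tf G q (trap K) v x ^ 2 := by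
    rw [hP]
    calc ∑ x ∈ univ.filter (fun x => K ≤ G.dist v x ∧ G.dist v x ≤ 2 * K + 1),
          (W G v x : ℝ) * ((q : ℝ)⁻¹) ^ (G.dist v x)
        = ∑ x ∈ univ.filter (fun x => K ≤ G.dist v x ∧ G.dist v x ≤ 2 * K + 1),
          (W G v x : ℝ) * tf G q (trap K) v x ^ 2 := by
          refine sum_congr rfl fun x hx => ?_
          obtain ⟨h1, h2⟩ := (mem_filter.1 hx).2
          rw [tf, trap_one hK0 h1 h2, one_mul, ← s3, ← pow_mul, ← pow_mul, mul_comm 2]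
      _ ≤ ∑ x, (W G v x : ℝ) * tf G q (trap K) v x ^ 2 := by
          refine sum_le_sum_of_subset_of_nonneg (filter_subset _ _) fun x _ _ => ?_
          positivity
  have hI := quad_tf_ge G hq hc hr (trap K) (trap_zero K) (M := 3 * K + 1)
    (fun j hj => trap_far hj) v
  have hQ := quad_le G (d := q + 1) (L := 2 * Real.sqrt q + η) (by positivity) hc hr hs
    (tf G q (trap K) v)
  have hn := norm_tf_le G hq hc hr hK v
  have hsum := sum_tf_le G hq hc hr hK v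
  have hlip : ∑ j ∈ range (3 * K + 1), (trap K (j + 1) - trap K j) ^ 2 ≤ 4 / K := by
    calc ∑ j ∈ range (3 * K + 1), (trap K (j + 1) - trap K j) ^ 2
        ≤ ∑ j ∈ range (3 * K + 1), 1 / (K : ℝ) ^ 2 := sum_le_sum fun j _ => trap_lip hK0 j
      _ = (3 * (K : ℝ) + 1) / K ^ 2 := by
          rw [sum_const, card_range, nsmul_eq_mul]; push_cast; ring
      _ ≤ 4 / K := by
          rw [div_le_div_iff₀ (by positivity) hKpos]
          nlinarith
  -- the trivial eigenvalue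
  have htriv : ((q + 1 : ℕ) : ℝ) * (∑ x, tf G q (trap K) v x) ^ 2 / (Fintype.card V : ℝ) ≤
      ((q : ℝ) + 1) / K := by
    have h36 : (36 : ℝ) * K ^ 3 ≤ (q : ℝ) ^ (3 * K) := by exact_mod_cast aux_pow hq hK
    have h6 : (q : ℝ) ^ (6 * K) = (q : ℝ) ^ (3 * K) * (q : ℝ) ^ (3 * K) := by
      rw [← pow_add]; congr 1; ring
    rw [div_le_div_iff₀ hN0 hKpos]
    push_cast
    calc ((q : ℝ) + 1) * (∑ x, tf G q (trap K) v x) ^ 2 * K
        ≤ ((q : ℝ) + 1) * (36 * (K : ℝ) ^ 2 * (q : ℝ) ^ (3 * K)) * K := by gcongr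
      _ = ((q : ℝ) + 1) * ((36 * (K : ℝ) ^ 3) * (q : ℝ) ^ (3 * K)) := by ring
      _ ≤ ((q : ℝ) + 1) * ((q : ℝ) ^ (3 * K) * (q : ℝ) ^ (3 * K)) := by gcongr
      _ ≤ ((q : ℝ) + 1) * Fintype.card V := by rw [← h6]; gcongr
  -- the error eta
  have heta : η * (tf G q (trap K) v ⬝ᵥ tf G q (trap K) v) ≤ 1 / (2 * K) := by
    calc η * (tf G q (trap K) v ⬝ᵥ tf G q (trap K) v) ≤ η * (6 * (K : ℝ)) := by gcongr
      _ ≤ 1 / (2 * K) := by
          rw [le_div_iff₀ (by positivity)]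
          nlinarith
  have h1s : (1 : ℝ) / 4 ≤ 1 - s := by linarith
  have hloss : ((q : ℝ) + 1) * s * ∑ j ∈ range (3 * K + 1), (trap K (j + 1) - trap K j) ^ 2 ≤
      ((q : ℝ) + 1) * (3 / 4) * (4 / K) := by gcongr
  have hfin : (1 - s) * P ≤ ((q : ℝ) + 1) * (3 / 4) * (4 / K) + 1 / (2 * K) + ((q : ℝ) + 1) / K := by
    have : (1 - s) * P ≤ (1 - s) * ∑ x, (W G v x : ℝ) * tf G q (trap K) v x ^ 2 := by
      have h4 : 0 ≤ 1 - s := by linarith
      gcongr
    linarith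
  have hfin2 : (1 : ℝ) / 4 * P ≤ (1 - s) * P := by gcongr
  have hb : ((q : ℝ) + 1) * (3 / 4) * (4 / K) + 1 / (2 * K) + ((q : ℝ) + 1) / K ≤
      6 * ((q : ℝ) + 1) / K := by
    have e1 : ((q : ℝ) + 1) * (3 / 4) * (4 / K) + 1 / (2 * K) + ((q : ℝ) + 1) / K =
        (3 * ((q : ℝ) + 1) + 1 / 2 + ((q : ℝ) + 1)) / K := by
      field_simp
    rw [e1]
    gcongr
    linarith
  have e2 : 24 * ((q : ℝ) + 1) / K = 4 * (6 * ((q : ℝ) + 1) / K) := by ring
  rw [e2]
  linarith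

include hq hc hr hη hs hK hηK hN in
open Classical in
/-- the bad vertices seen from `v` -/
theorem bad_seen_le {r : ℕ} (v : V) :
    ∑ t ∈ Ico (K + r) (2 * K - r + 1),
      ((q : ℝ)⁻¹) ^ t * (((sph G v t).filter (Bad G r)).card : ℝ) ≤
      (2 * (r : ℝ) + 1) * ((r : ℝ) + 1) * (q : ℝ) ^ r * ((q : ℝ) + 1) *
        (24 * ((q : ℝ) + 1) / K) := by
  have hq0 : (0 : ℝ) < q := by exact_mod_cast (by omega : 0 < q)
  have hD := defect_weight_le G hq hc hr hη hs hK hηK hN v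
  have hE := dfct_le_W G (q := q) (by omega) hc v K (2 * K)
  -- one value of t
  have h1 : ∀ t ∈ Ico (K + r) (2 * K - r + 1),
      ((q : ℝ)⁻¹) ^ t * (((sph G v t).filter (Bad G r)).card : ℝ) ≤
        ((r : ℝ) + 1) * (q : ℝ) ^ r * ∑ w ∈ univ.filter (fun w => Dfct G v w ∧ K ≤ G.dist v w ∧
          G.dist v w ≤ 2 * K), if t ≤ G.dist v w + r ∧ G.dist v w ≤ t + r then
            ((q : ℝ)⁻¹) ^ (G.dist v w) else 0 := by
    intro t ht
    obtain ⟨ht1, ht2⟩ := mem_Ico.1 ht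
    have h2 := card_bad_le G (q := q) (by omega) hc hr v (r := r) (t := t) (by omega)
    have h3 : ((q : ℝ)⁻¹) ^ t * (q : ℝ) ^ (t + r) = (q : ℝ) ^ r := by
      rw [pow_add, ← mul_assoc, ← mul_pow, inv_mul_cancel₀ hq0.ne', one_pow, one_mul]
    calc ((q : ℝ)⁻¹) ^ t * (((sph G v t).filter (Bad G r)).card : ℝ)
        ≤ ((q : ℝ)⁻¹) ^ t *
          ∑ w ∈ univ.filter (fun w => Dfct G v w ∧ t ≤ G.dist v w + r ∧ G.dist v w ≤ t + r),
            ((r : ℝ) + 1) * (q : ℝ) ^ (t + r) * ((q : ℝ)⁻¹) ^ (G.dist v w) := by gcongr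
      _ = ((r : ℝ) + 1) * (q : ℝ) ^ r *
          ∑ w ∈ univ.filter (fun w => Dfct G v w ∧ t ≤ G.dist v w + r ∧ G.dist v w ≤ t + r),
            ((q : ℝ)⁻¹) ^ (G.dist v w) := by
          rw [← h3, mul_sum, mul_sum]
          refine sum_congr rfl fun w _ => ?_
          ring
      _ = ((r : ℝ) + 1) * (q : ℝ) ^ r * ∑ w ∈ univ.filter (fun w => Dfct G v w ∧ K ≤ G.dist v w ∧
          G.dist v w ≤ 2 * K), if t ≤ G.dist v w + r ∧ G.dist v w ≤ t + r then
            ((q : ℝ)⁻¹) ^ (G.dist v w) else 0 := by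
          congr 1
          rw [← sum_filter, filter_filter]
          refine sum_congr ?_ fun _ _ => rfl
          ext w
          simp only [mem_filter, mem_univ, true_and]
          constructor
          · rintro ⟨h4, h5, h6⟩
            exact ⟨⟨h4, by omega, by omega⟩, h5, h6⟩
          · rintro ⟨⟨h4, _, _⟩, h5, h6⟩
            exact ⟨h4, h5, h6⟩
  -- the number of t for a given w
  have h2 : ∀ w : V, ∑ t ∈ Ico (K + r) (2 * K - r + 1),
      (if t ≤ G.dist v w + r ∧ G.dist v w ≤ t + r then ((q : ℝ)⁻¹) ^ (G.dist v w) else 0) ≤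
        (2 * (r : ℝ) + 1) * ((q : ℝ)⁻¹) ^ (G.dist v w) := by
    intro w
    rw [← sum_filter, sum_const, nsmul_eq_mul]
    have h3 : (filter (fun t => t ≤ G.dist v w + r ∧ G.dist v w ≤ t + r)
        (Ico (K + r) (2 * K - r + 1))).card ≤ 2 * r + 1 := by
      calc (filter (fun t => t ≤ G.dist v w + r ∧ G.dist v w ≤ t + r)
            (Ico (K + r) (2 * K - r + 1))).card
          ≤ (Ico (G.dist v w - r) (G.dist v w + r + 1)).card := by
            refine card_le_card fun t ht => ?_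
            have h4 := (mem_filter.1 ht).2
            rw [mem_Ico]
            omega
        _ ≤ 2 * r + 1 := by
            rw [Nat.card_Ico]
            omega
    have h4 : ((filter (fun t => t ≤ G.dist v w + r ∧ G.dist v w ≤ t + r)
        (Ico (K + r) (2 * K - r + 1))).card : ℝ) ≤ 2 * (r : ℝ) + 1 := by exact_mod_cast h3
    gcongr
  calc ∑ t ∈ Ico (K + r) (2 * K - r + 1),
        ((q : ℝ)⁻¹) ^ t * (((sph G v t).filter (Bad G r)).card : ℝ)
      ≤ ∑ t ∈ Ico (K + r) (2 * K - r + 1), ((r : ℝ) + 1) * (q : ℝ) ^ r *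
          ∑ w ∈ univ.filter (fun w => Dfct G v w ∧ K ≤ G.dist v w ∧
          G.dist v w ≤ 2 * K), if t ≤ G.dist v w + r ∧ G.dist v w ≤ t + r then
            ((q : ℝ)⁻¹) ^ (G.dist v w) else 0 := sum_le_sum h1
    _ = ((r : ℝ) + 1) * (q : ℝ) ^ r * ∑ w ∈ univ.filter (fun w => Dfct G v w ∧ K ≤ G.dist v w ∧
          G.dist v w ≤ 2 * K), ∑ t ∈ Ico (K + r) (2 * K - r + 1),
            if t ≤ G.dist v w + r ∧ G.dist v w ≤ t + r then
            ((q : ℝ)⁻¹) ^ (G.dist v w) else 0 := by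
        rw [← mul_sum, sum_comm]
    _ ≤ ((r : ℝ) + 1) * (q : ℝ) ^ r * ∑ w ∈ univ.filter (fun w => Dfct G v w ∧ K ≤ G.dist v w ∧
          G.dist v w ≤ 2 * K), (2 * (r : ℝ) + 1) * ((q : ℝ)⁻¹) ^ (G.dist v w) := by
        gcongr with w _
        exact h2 w
    _ = ((r : ℝ) + 1) * (q : ℝ) ^ r * (2 * (r : ℝ) + 1) *
          ∑ w ∈ univ.filter (fun w => Dfct G v w ∧ K ≤ G.dist v w ∧
          G.dist v w ≤ 2 * K), ((q : ℝ)⁻¹) ^ (G.dist v w) := by
        rw [← mul_sum]; ring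
    _ ≤ ((r : ℝ) + 1) * (q : ℝ) ^ r * (2 * (r : ℝ) + 1) *
          ((1 + (q : ℝ)) * (24 * ((q : ℝ) + 1) / K)) := by
        gcongr
        exact hE.trans (by gcongr)
    _ = (2 * (r : ℝ) + 1) * ((r : ℝ) + 1) * (q : ℝ) ^ r * ((q : ℝ) + 1) *
        (24 * ((q : ℝ) + 1) / K) := by ring

include hq hc hr hη hs hK hηK hN in
/-- every vertex sees many vertices -/
theorem seen_ge {r : ℕ} (hrK : 4 * r ≤ K) (y : V) :
    (K : ℝ) / 3456 ≤ ∑ t ∈ Ico (K + r) (2 * K - r + 1),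
      ((q : ℝ)⁻¹) ^ t * ((sph G y t).card : ℝ) := by
  have hq0 : (1 : ℝ) ≤ q := by exact_mod_cast (by omega : 1 ≤ q)
  have hK' : (36 : ℝ) ≤ K := by exact_mod_cast hK
  have hηK' : η * ((4 * K : ℕ) : ℝ) ^ 2 ≤ 1 := by push_cast; exact hηK
  have hN' : (q : ℝ) ^ (4 * K) ≤ (Fintype.card V : ℝ) :=
    (pow_le_pow_right₀ hq0 (by omega)).trans hN
  set m := (K - 2 * r + 1) / 9 with hm
  have hm1 : 9 * m ≤ K - 2 * r + 1 := Nat.mul_div_le _ _
  have hm2 : K - 2 * r + 1 < 9 * m + 9 := by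
    have := Nat.div_add_mod (K - 2 * r + 1) 9
    have := Nat.mod_lt (K - 2 * r + 1) (show 0 < 9 by norm_num)
    omega
  have hm3 : K ≤ 36 * m := by omega
  have h1 := sum_windows (fun t => ((q : ℝ)⁻¹) ^ t * ((sph G y t).card : ℝ)) (1 / 96) (K + r) m
    (fun i hi => window_ge G hq hc hr hη hs (M := 4 * K) (by omega) hηK' hN'
      (T := K + r + 9 * i) (by omega) (by omega) y)
  have hm4 : (K : ℝ) ≤ 36 * m := by exact_mod_cast hm3
  calc (K : ℝ) / 3456 ≤ (m : ℝ) * (1 / 96) := by linarith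
    _ ≤ ∑ t ∈ Ico (K + r) (K + r + 9 * m), ((q : ℝ)⁻¹) ^ t * ((sph G y t).card : ℝ) := h1
    _ ≤ ∑ t ∈ Ico (K + r) (2 * K - r + 1), ((q : ℝ)⁻¹) ^ t * ((sph G y t).card : ℝ) := by
        refine sum_le_sum_of_subset_of_nonneg ?_ fun t _ _ => by positivity
        refine Ico_subset_Ico le_rfl (by omega)

include hq hc hr hη hs hK hηK hN in
open Classical in
theorem main_K {r : ℕ} (hrK : 4 * r ≤ K) :
    ((univ.filter (Bad G r)).card : ℝ) ≤
      165888 * ((q : ℝ) + 1) ^ 2 * ((r : ℝ) + 1) ^ 2 * (q : ℝ) ^ r / (K : ℝ) ^ 2 *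
        (Fintype.card V : ℝ) := by
  have hK' : (36 : ℝ) ≤ K := by exact_mod_cast hK
  have hKpos : (0 : ℝ) < K := by linarith
  -- double counting
  have h1 : ∑ v : V, ∑ t ∈ Ico (K + r) (2 * K - r + 1),
      ((q : ℝ)⁻¹) ^ t * (((sph G v t).filter (Bad G r)).card : ℝ) =
      ∑ y ∈ univ.filter (Bad G r), ∑ t ∈ Ico (K + r) (2 * K - r + 1),
        ((q : ℝ)⁻¹) ^ t * ((sph G y t).card : ℝ) := by
    rw [sum_comm, sum_comm (s := univ.filter (Bad G r))]
    refine sum_congr rfl fun t _ => ?_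
    rw [← mul_sum, ← mul_sum]
    congr 1
    have e1 : ∀ v : V, (((sph G v t).filter (Bad G r)).card : ℝ) =
        ∑ y ∈ univ.filter (Bad G r), if G.dist v y = t then (1 : ℝ) else 0 := by
      intro v
      rw [← sum_filter, sum_const, nsmul_eq_mul, mul_one]
      congr 2
      ext y
      simp only [sph, mem_filter, mem_univ, true_and]
      tauto
    have e2 : ∀ y : V, ((sph G y t).card : ℝ) = ∑ v : V, if G.dist v y = t then (1 : ℝ) else 0 := by
      intro y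
      rw [← sum_filter, sum_const, nsmul_eq_mul, mul_one]
      congr 2
      ext v
      simp only [sph, mem_filter, mem_univ, true_and]
      rw [SimpleGraph.dist_comm]
    simp_rw [e1, e2]
    rw [sum_comm]
  have h2 : ((univ.filter (Bad G r)).card : ℝ) * ((K : ℝ) / 3456) ≤
      (Fintype.card V : ℝ) * ((2 * (r : ℝ) + 1) * ((r : ℝ) + 1) * (q : ℝ) ^ r * ((q : ℝ) + 1) *
        (24 * ((q : ℝ) + 1) / K)) := by
    calc ((univ.filter (Bad G r)).card : ℝ) * ((K : ℝ) / 3456)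
        = ∑ y ∈ univ.filter (Bad G r), (K : ℝ) / 3456 := by rw [sum_const, nsmul_eq_mul]
      _ ≤ ∑ y ∈ univ.filter (Bad G r), ∑ t ∈ Ico (K + r) (2 * K - r + 1),
          ((q : ℝ)⁻¹) ^ t * ((sph G y t).card : ℝ) :=
          sum_le_sum fun y _ => seen_ge G hq hc hr hη hs hK hηK hN hrK y
      _ = ∑ v : V, ∑ t ∈ Ico (K + r) (2 * K - r + 1),
          ((q : ℝ)⁻¹) ^ t * (((sph G v t).filter (Bad G r)).card : ℝ) := h1.symm
      _ ≤ ∑ v : V, ((2 * (r : ℝ) + 1) * ((r : ℝ) + 1) * (q : ℝ) ^ r * ((q : ℝ) + 1) *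
          (24 * ((q : ℝ) + 1) / K)) :=
          sum_le_sum fun v _ => bad_seen_le G hq hc hr hη hs hK hηK hN v
      _ = (Fintype.card V : ℝ) * ((2 * (r : ℝ) + 1) * ((r : ℝ) + 1) * (q : ℝ) ^ r *
          ((q : ℝ) + 1) * (24 * ((q : ℝ) + 1) / K)) := by
          rw [sum_const, card_univ, nsmul_eq_mul]
  have h3 : ((univ.filter (Bad G r)).card : ℝ) =
      ((univ.filter (Bad G r)).card : ℝ) * ((K : ℝ) / 3456) * (3456 / K) := by
    field_simp
  rw [h3]
  calc ((univ.filter (Bad G r)).card : ℝ) * ((K : ℝ) / 3456) * (3456 / K)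
      ≤ (Fintype.card V : ℝ) * ((2 * (r : ℝ) + 1) * ((r : ℝ) + 1) * (q : ℝ) ^ r * ((q : ℝ) + 1) *
        (24 * ((q : ℝ) + 1) / K)) * (3456 / K) := by gcongr
    _ = 82944 * ((q : ℝ) + 1) ^ 2 * ((2 * (r : ℝ) + 1) * ((r : ℝ) + 1)) * (q : ℝ) ^ r /
        (K : ℝ) ^ 2 * (Fintype.card V : ℝ) := by
        field_simp
        ring
    _ ≤ 82944 * ((q : ℝ) + 1) ^ 2 * (2 * ((r : ℝ) + 1) ^ 2) * (q : ℝ) ^ r /
        (K : ℝ) ^ 2 * (Fintype.card V : ℝ) := by
        have h4 : (2 * (r : ℝ) + 1) * ((r : ℝ) + 1) ≤ 2 * ((r : ℝ) + 1) ^ 2 := by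
          have : (0 : ℝ) ≤ r := Nat.cast_nonneg r
          nlinarith
        gcongr
    _ = 165888 * ((q : ℝ) + 1) ^ 2 * ((r : ℝ) + 1) ^ 2 * (q : ℝ) ^ r / (K : ℝ) ^ 2 *
        (Fintype.card V : ℝ) := by ring

end

end Pool.Agent.helper5.RG
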