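import Mathlib
import Pool.Agent.helper5.RG.Mai

set_option autoImplicit false

/-!
# RG-13 (Fin): the final bounds
-/

namespace Pool.Agent.helper5.RG

open Finset Matrix Filter

/-- the bound for a graph on a general vertex set -/
theorem bad_card_le {q : ℕ} (hq : 2 ≤ q) {V : Type*} [Fintype V] [DecidableEq V]
    (G : SimpleGraph V) [DecidableRel G.Adj] (hc : G.Connected)
    (hr : G.IsRegularOfDegree (q + 1)) {η : ℝ} (hη : 0 ≤ η)
    (hs : Spec G (q + 1) (2 * Real.sqrt q + η)) (r : ℕ) :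
    ({v : V | Bad G r v}.ncard : ℝ) ≤
      663552 * ((q : ℝ) + 1) ^ 2 * (36 * Real.log q ^ 2 + 16) * ((r : ℝ) + 1) ^ 2 * (q : ℝ) ^ r *
        (η + 1 / Real.log (Fintype.card V) ^ 2) * (Fintype.card V : ℝ) := by
  classical
  have hq' : (2 : ℝ) ≤ q := by exact_mod_cast hq
  have hlq : 0 < Real.log q := Real.log_pos (by linarith)
  obtain ⟨v0⟩ := hc.nonempty
  have hcard : q + 1 < Fintype.card V := by
    have := G.degree_lt_card_verts v0
    rwa [hr v0] at this
  have hN1 : (1 : ℝ) < Fintype.card V := by exact_mod_cast (by omega : 1 < Fintype.card V)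
  have hNpos : (0 : ℝ) < Fintype.card V := by linarith
  set N : ℝ := (Fintype.card V : ℝ) with hN
  have hlN : 0 < Real.log N := Real.log_pos hN1
  have hncard : ({v : V | Bad G r v}.ncard : ℝ) = ((univ.filter (Bad G r)).card : ℝ) := by
    rw [← Set.ncard_coe_finset]
    congr 2
    ext v
    simp
  have hle : ((univ.filter (Bad G r)).card : ℝ) ≤ N := by
    rw [hN]
    exact_mod_cast card_le_univ _
  rw [hncard]
  set X : ℝ := η + 1 / Real.log N ^ 2 with hX
  have hX1 : 1 / Real.log N ^ 2 ≤ X := by rw [hX]; linarith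
  have hX2 : η ≤ X := by
    rw [hX]
    have : 0 < 1 / Real.log N ^ 2 := by positivity
    linarith
  have hXpos : 0 < X := lt_of_lt_of_le (by positivity) hX1
  set B : ℝ := 36 * Real.log q ^ 2 + 16 with hB
  have hBpos : 0 < B := by positivity
  have hBX : 0 < B * X := mul_pos hBpos hXpos
  set κ : ℝ := 1 / Real.sqrt (B * X) with hκ
  have hsq : 0 < Real.sqrt (B * X) := Real.sqrt_pos.2 hBX
  have hκpos : 0 < κ := by rw [hκ]; positivity
  have hκ2 : κ ^ 2 * (B * X) = 1 := by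
    rw [hκ, div_pow, one_pow, Real.sq_sqrt hBX.le]
    field_simp
  set K : ℕ := ⌊κ⌋₊ with hKdef
  have hKκ : (K : ℝ) ≤ κ := Nat.floor_le hκpos.le
  have hκK : κ < K + 1 := Nat.lt_floor_add_one κ
  have hr1 : (1 : ℝ) ≤ ((r : ℝ) + 1) ^ 2 := by
    have : (0 : ℝ) ≤ r := Nat.cast_nonneg r
    nlinarith
  have hq1 : (1 : ℝ) ≤ (q : ℝ) ^ r := one_le_pow₀ (by linarith)
  have hq9 : (9 : ℝ) ≤ ((q : ℝ) + 1) ^ 2 := by nlinarith
  by_cases h36 : 36 ≤ K
  · by_cases h4r : 4 * r ≤ K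
    · have hKpos : (0 : ℝ) < K := by
        have : (36 : ℝ) ≤ K := by exact_mod_cast h36
        linarith
      have hc1 : η * (4 * (K : ℝ)) ^ 2 ≤ 1 := by
        calc η * (4 * (K : ℝ)) ^ 2 ≤ η * (4 * κ) ^ 2 := by gcongr
          _ = κ ^ 2 * (16 * η) := by ring
          _ ≤ κ ^ 2 * (B * X) := by
              gcongr
              nlinarith [sq_nonneg (Real.log q)]
          _ = 1 := hκ2
      have hc2 : (q : ℝ) ^ (6 * K) ≤ N := by
        have h1 : 6 * κ * Real.log q ≤ Real.log N := by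
          refine abs_le_of_sq_le_sq' ?_ hlN.le |>.2
          have h2 : 36 * Real.log q ^ 2 ≤ B * X * Real.log N ^ 2 := by
            calc 36 * Real.log q ^ 2 ≤ B := by rw [hB]; linarith
              _ = B * (1 / Real.log N ^ 2) * Real.log N ^ 2 := by field_simp
              _ ≤ B * X * Real.log N ^ 2 := by gcongr
          calc (6 * κ * Real.log q) ^ 2 = κ ^ 2 * (36 * Real.log q ^ 2) := by ring
            _ ≤ κ ^ 2 * (B * X * Real.log N ^ 2) := by gcongr
            _ = κ ^ 2 * (B * X) * Real.log N ^ 2 := by ring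
            _ = Real.log N ^ 2 := by rw [hκ2, one_mul]
        have h3 : Real.log ((q : ℝ) ^ (6 * K)) ≤ Real.log N := by
          rw [Real.log_pow]
          push_cast
          refine le_trans ?_ h1
          gcongr
        exact (Real.log_le_log_iff (by positivity) hNpos).1 h3
      have hm := main_K G hq hc hr hη hs h36 hc1 hc2 h4r
      have h4 : 1 / (K : ℝ) ^ 2 ≤ 4 * (B * X) := by
        have h5 : κ ≤ 2 * K := by
          have : (36 : ℝ) ≤ K := by exact_mod_cast h36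
          linarith
        rw [div_le_iff₀ (by positivity)]
        calc (1 : ℝ) = κ ^ 2 * (B * X) := hκ2.symm
          _ ≤ (2 * K) ^ 2 * (B * X) := by gcongr
          _ = 4 * (B * X) * (K : ℝ) ^ 2 := by ring
      calc ((univ.filter (Bad G r)).card : ℝ)
          ≤ 165888 * ((q : ℝ) + 1) ^ 2 * ((r : ℝ) + 1) ^ 2 * (q : ℝ) ^ r / (K : ℝ) ^ 2 * N := hm
        _ = 165888 * ((q : ℝ) + 1) ^ 2 * ((r : ℝ) + 1) ^ 2 * (q : ℝ) ^ r * (1 / (K : ℝ) ^ 2) * N := by
            ring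
        _ ≤ 165888 * ((q : ℝ) + 1) ^ 2 * ((r : ℝ) + 1) ^ 2 * (q : ℝ) ^ r * (4 * (B * X)) * N := by
            gcongr
        _ = 663552 * ((q : ℝ) + 1) ^ 2 * B * ((r : ℝ) + 1) ^ 2 * (q : ℝ) ^ r * X * N := by ring
    · -- `K < 4 r`
      have h5 : κ ≤ 4 * ((r : ℝ) + 1) := by
        have : (K : ℝ) + 1 ≤ 4 * r := by exact_mod_cast (by omega : K + 1 ≤ 4 * r)
        linarith
      have h6 : 1 ≤ 16 * ((r : ℝ) + 1) ^ 2 * (B * X) := by
        calc (1 : ℝ) = κ ^ 2 * (B * X) := hκ2.symm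
          _ ≤ (4 * ((r : ℝ) + 1)) ^ 2 * (B * X) := by gcongr
          _ = 16 * ((r : ℝ) + 1) ^ 2 * (B * X) := by ring
      calc ((univ.filter (Bad G r)).card : ℝ) ≤ 1 * N := by rw [one_mul]; exact hle
        _ ≤ 16 * ((r : ℝ) + 1) ^ 2 * (B * X) * N := by gcongr
        _ = 16 * 1 * B * ((r : ℝ) + 1) ^ 2 * 1 * X * N := by ring
        _ ≤ 663552 * ((q : ℝ) + 1) ^ 2 * B * ((r : ℝ) + 1) ^ 2 * (q : ℝ) ^ r * X * N := by
            gcongr
            · norm_num
            · linarith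
  · have h5 : κ ≤ 36 := by
      have : (K : ℝ) + 1 ≤ 36 := by exact_mod_cast (by omega : K + 1 ≤ 36)
      linarith
    have h6 : 1 ≤ 1296 * (B * X) := by
      calc (1 : ℝ) = κ ^ 2 * (B * X) := hκ2.symm
        _ ≤ 36 ^ 2 * (B * X) := by gcongr
        _ = 1296 * (B * X) := by norm_num
    calc ((univ.filter (Bad G r)).card : ℝ) ≤ 1 * N := by rw [one_mul]; exact hle
      _ ≤ 1296 * (B * X) * N := by gcongr
      _ = 1296 * 1 * B * 1 * 1 * X * N := by ring
      _ ≤ 663552 * ((q : ℝ) + 1) ^ 2 * B * ((r : ℝ) + 1) ^ 2 * (q : ℝ) ^ r * X * N := by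
          gcongr
          · norm_num
          · linarith

theorem bad_bound' (d : ℕ) (hd : 3 ≤ d) (N : ℕ) (G : SimpleGraph (Fin N))
    [DecidableRel G.Adj] (η : ℝ) (hη : 0 ≤ η) (hc : G.Connected) (hr : G.IsRegularOfDegree d)
    (hs : ∀ μ : ℝ, (∃ x : Fin N → ℝ, x ≠ 0 ∧ Matrix.mulVec (G.adjMatrix ℝ) x = μ • x) →
      |μ| = (d : ℝ) ∨ |μ| ≤ 2 * Real.sqrt ((d : ℝ) - 1) + η) (r : ℕ) :
    ({v : Fin N | ¬ (G.induce {u : Fin N | G.dist v u ≤ r}).IsTree}.ncard : ℝ) ≤
      663552 * (d : ℝ) ^ 2 * (36 * Real.log ((d : ℝ) - 1) ^ 2 + 16) * ((r : ℝ) + 1) ^ 2 *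
        ((d : ℝ) - 1) ^ r * (η + 1 / Real.log N ^ 2) * N := by
  obtain ⟨q, rfl⟩ : ∃ q, d = q + 1 := ⟨d - 1, by omega⟩
  have hq : 2 ≤ q := by omega
  have e1 : (((q + 1 : ℕ) : ℝ) - 1) = q := by push_cast; ring
  rw [e1] at hs ⊢
  have h := bad_card_le hq G hc hr hη hs r
  rw [Fintype.card_fin] at h
  push_cast
  exact h

theorem bad_bound (d : ℕ) (hd : 3 ≤ d) : ∃ C : ℝ, 0 ≤ C ∧ ∀ (N : ℕ) (G : SimpleGraph (Fin N))
    [DecidableRel G.Adj] (η : ℝ), 0 ≤ η → G.Connected → G.IsRegularOfDegree d →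
    (∀ μ : ℝ, (∃ x : Fin N → ℝ, x ≠ 0 ∧ Matrix.mulVec (G.adjMatrix ℝ) x = μ • x) →
      |μ| = (d : ℝ) ∨ |μ| ≤ 2 * Real.sqrt ((d : ℝ) - 1) + η) →
    ∀ r : ℕ, ({v : Fin N | ¬ (G.induce {u : Fin N | G.dist v u ≤ r}).IsTree}.ncard : ℝ) ≤
      C * ((r : ℝ) + 1) ^ 2 * ((d : ℝ) - 1) ^ r * (η + 1 / Real.log N ^ 2) * N := by
  refine ⟨663552 * (d : ℝ) ^ 2 * (36 * Real.log ((d : ℝ) - 1) ^ 2 + 16), by positivity, ?_⟩
  intro N G _ η hη hc hr hs r
  exact bad_bound' d hd N G η hη hc hr hs r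

lemma tendsto_aux {A b : ℝ} (hb : 0 < b) :
    Tendsto (fun y : ℝ => (A * y + 1) ^ 2 * Real.exp (-(b * y))) atTop (nhds 0) := by
  have h1 : Tendsto (fun z : ℝ => (A / b) ^ 2 * (z ^ 2 * Real.exp (-z)) +
      2 * (A / b) * (z ^ 1 * Real.exp (-z)) + z ^ 0 * Real.exp (-z)) atTop
      (nhds ((A / b) ^ 2 * 0 + 2 * (A / b) * 0 + 0)) :=
    ((Real.tendsto_pow_mul_exp_neg_atTop_nhds_zero 2).const_mul _).add
      ((Real.tendsto_pow_mul_exp_neg_atTop_nhds_zero 1).const_mul _) |>.add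
      (Real.tendsto_pow_mul_exp_neg_atTop_nhds_zero 0)
  have h2 : Tendsto (fun y : ℝ => b * y) atTop atTop := tendsto_id.const_mul_atTop hb
  have h3 := h1.comp h2
  simp only [mul_zero, add_zero] at h3
  refine h3.congr fun y => ?_
  simp only [Function.comp]
  field_simp
  ring

theorem seq_bound (d : ℕ) (hd : 3 ≤ d) (c : ℝ) (hc0 : 0 ≤ c) (hc : c < 2) (a : ℝ) (ha : 0 ≤ a)
    (N : ℕ → ℕ) (G : ∀ n, SimpleGraph (Fin (N n))) [∀ n, DecidableRel (G n).Adj]
    (hN : Tendsto N atTop atTop)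
    (hG : ∀ n, (G n).Connected ∧ (G n).IsRegularOfDegree d ∧
      ∀ μ : ℝ, (∃ x : Fin (N n) → ℝ, x ≠ 0 ∧
        Matrix.mulVec ((G n).adjMatrix ℝ) x = μ • x) →
          |μ| = (d : ℝ) ∨ |μ| ≤ 2 * Real.sqrt ((d : ℝ) - 1) + a / Real.log (N n) ^ 2) :
    Tendsto (fun n => (({v : Fin (N n) | ((G n).induce {u : Fin (N n) |
      ((G n).dist v u : ℝ) ≤ c * (Real.log (Real.log (N n)) / Real.log ((d : ℝ) - 1))}).IsTree}.ncard : ℝ)
        / (N n : ℝ))) atTop (nhds 1) := by
  obtain ⟨C, hC0, hC⟩ := bad_bound d hd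
  set lq : ℝ := Real.log ((d : ℝ) - 1) with hlq
  have hd' : (3 : ℝ) ≤ d := by exact_mod_cast hd
  have hlqpos : 0 < lq := Real.log_pos (by linarith)
  set y : ℕ → ℝ := fun n => Real.log (Real.log (N n)) with hy
  have hNr : Tendsto (fun n => ((N n : ℕ) : ℝ)) atTop atTop := tendsto_natCast_atTop_atTop.comp hN
  have hyt : Tendsto y atTop atTop := Real.tendsto_log_atTop.comp (Real.tendsto_log_atTop.comp hNr)
  have hlim : Tendsto (fun n => C * (a + 1) * ((c / lq * y n + 1) ^ 2 *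
      Real.exp (-((2 - c) * y n)))) atTop (nhds 0) := by
    have h1 := (tendsto_aux (A := c / lq) (b := 2 - c) (by linarith)).comp hyt
    have h2 := h1.const_mul (C * (a + 1))
    rw [mul_zero] at h2
    exact h2
  have hlow : Tendsto (fun n => 1 - C * (a + 1) * ((c / lq * y n + 1) ^ 2 *
      Real.exp (-((2 - c) * y n)))) atTop (nhds 1) := by
    have := hlim.const_sub 1
    rwa [sub_zero] at this
  refine tendsto_of_tendsto_of_tendsto_of_le_of_le' hlow tendsto_const_nhds ?_ ?_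
  · have hev1 : ∀ᶠ n in atTop, 0 ≤ y n := hyt.eventually_ge_atTop 0
    have hev2 : ∀ᶠ n in atTop, (3 : ℝ) ≤ (N n : ℝ) := hNr.eventually_ge_atTop 3
    filter_upwards [hev1, hev2] with n hn hn3
    have hNpos : (0 : ℝ) < N n := by linarith
    have hx1 : 0 < Real.log (N n) := Real.log_pos (by linarith)
    set r : ℕ := ⌊c * (y n / lq)⌋₊ with hr
    have hR0 : 0 ≤ c * (y n / lq) := by positivity
    have hrle : (r : ℝ) ≤ c * (y n / lq) := Nat.floor_le hR0
    have hset : {v : Fin (N n) | ((G n).induce {u : Fin (N n) |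
        ((G n).dist v u : ℝ) ≤ c * (Real.log (Real.log (N n)) / lq)}).IsTree} =
        {v : Fin (N n) | ((G n).induce {u : Fin (N n) | (G n).dist v u ≤ r}).IsTree} := by
      have h1 : ∀ v : Fin (N n), {u : Fin (N n) |
          ((G n).dist v u : ℝ) ≤ c * (Real.log (Real.log (N n)) / lq)} =
          {u : Fin (N n) | (G n).dist v u ≤ r} := by
        intro v
        ext u
        exact (Nat.le_floor_iff hR0).symm
      refine Set.ext fun v => ?_
      have h2 : ((G n).induce {u : Fin (N n) |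
          ((G n).dist v u : ℝ) ≤ c * (Real.log (Real.log (N n)) / lq)}).IsTree ↔
          ((G n).induce {u : Fin (N n) | (G n).dist v u ≤ r}).IsTree := by rw [h1 v]
      exact h2
    rw [hset]
    obtain ⟨hcn, hrn, hsn⟩ := hG n
    have hb := hC (N n) (G n) (a / Real.log (N n) ^ 2) (by positivity) hcn hrn hsn r
    have hcompl : ({v : Fin (N n) | ((G n).induce {u : Fin (N n) | (G n).dist v u ≤ r}).IsTree}.ncard : ℝ) =
        N n - ({v : Fin (N n) | ¬ ((G n).induce {u : Fin (N n) | (G n).dist v u ≤ r}).IsTree}.ncard : ℝ) := by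
      have h1 := Set.ncard_add_ncard_compl
        {v : Fin (N n) | ((G n).induce {u : Fin (N n) | (G n).dist v u ≤ r}).IsTree}
      rw [Nat.card_eq_fintype_card, Fintype.card_fin] at h1
      have h2 : {v : Fin (N n) | ((G n).induce {u : Fin (N n) | (G n).dist v u ≤ r}).IsTree}ᶜ =
        {v : Fin (N n) | ¬ ((G n).induce {u : Fin (N n) | (G n).dist v u ≤ r}).IsTree} := rfl
      rw [h2] at h1
      have h3 : ({v : Fin (N n) | ((G n).induce {u : Fin (N n) |
          (G n).dist v u ≤ r}).IsTree}.ncard : ℝ) +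
          ({v : Fin (N n) | ¬ ((G n).induce {u : Fin (N n) | (G n).dist v u ≤ r}).IsTree}.ncard : ℝ)
            = N n := by exact_mod_cast h1
      linarith
    rw [hcompl, le_div_iff₀ hNpos]
    have hexp : ((d : ℝ) - 1) ^ r ≤ Real.exp (c * y n) := by
      have h1 : ((d : ℝ) - 1) = Real.exp lq := (Real.exp_log (by linarith)).symm
      rw [h1, ← Real.exp_nat_mul]
      refine Real.exp_le_exp.2 ?_
      calc (r : ℝ) * lq ≤ c * (y n / lq) * lq := by gcongr
        _ = c * y n := by field_simp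
    have hsq : Real.log (N n) ^ 2 = Real.exp (2 * y n) := by
      have h1 : Real.log (N n) = Real.exp (y n) := (Real.exp_log hx1).symm
      rw [h1, ← Real.exp_nat_mul]
      norm_num
    have hb2 : ({v : Fin (N n) | ¬ ((G n).induce {u : Fin (N n) | (G n).dist v u ≤ r}).IsTree}.ncard : ℝ) ≤
        C * (a + 1) * ((c / lq * y n + 1) ^ 2 * Real.exp (-((2 - c) * y n))) * N n := by
      refine hb.trans ?_
      calc C * ((r : ℝ) + 1) ^ 2 * ((d : ℝ) - 1) ^ r *
            (a / Real.log (N n) ^ 2 + 1 / Real.log (N n) ^ 2) * N n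
          ≤ C * ((c * (y n / lq)) + 1) ^ 2 * Real.exp (c * y n) *
            (a / Real.log (N n) ^ 2 + 1 / Real.log (N n) ^ 2) * N n := by
            have h5 : 0 ≤ a / Real.log (N n) ^ 2 + 1 / Real.log (N n) ^ 2 := by positivity
            have h6 : (0 : ℝ) ≤ ((d : ℝ) - 1) ^ r := pow_nonneg (by linarith) _
            gcongr
        _ = C * (a + 1) * ((c / lq * y n + 1) ^ 2 * (Real.exp (c * y n) *
            (Real.exp (2 * y n))⁻¹)) * N n := by
            rw [hsq]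
            ring
        _ = C * (a + 1) * ((c / lq * y n + 1) ^ 2 * Real.exp (-((2 - c) * y n))) * N n := by
            rw [← Real.exp_neg, ← Real.exp_add]
            congr 5
            ring
    linarith
  · filter_upwards with n
    have h1 : ({v : Fin (N n) | ((G n).induce {u : Fin (N n) |
        ((G n).dist v u : ℝ) ≤ c * (Real.log (Real.log (N n)) / lq)}).IsTree}.ncard : ℝ) ≤ N n := by
      have := Set.ncard_le_card {v : Fin (N n) | ((G n).induce {u : Fin (N n) |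
        ((G n).dist v u : ℝ) ≤ c * (Real.log (Real.log (N n)) / lq)}).IsTree}
      rw [Nat.card_eq_fintype_card, Fintype.card_fin] at this
      exact_mod_cast this
    exact div_le_one_of_le₀ h1 (Nat.cast_nonneg _)

end Pool.Agent.helper5.RG
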